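import Pool.Agent.W844.VG.Basic

/-!
# MP_b4265e_pr: boxes and annuli are connected, simple chains
-/

set_option autoImplicit false

open Finset
open scoped Classical

namespace Pool.Agent.W844.VG

variable {d : ℕ}

/-- products of intervals are connected -/
lemma prod_conn {α : Type} (g : V d → α) (lo up : V d)
    (h : ∀ z i, (∀ j, lo j ≤ z j ∧ z j ≤ up j) → z i + 1 ≤ up i → g (z + stp i) = g z) :
    ∀ (n : ℕ) (x y : V d), (∀ j, lo j ≤ x j ∧ x j ≤ up j) → (∀ j, lo j ≤ y j ∧ y j ≤ up j) →
      ∑ j, (x j - y j).natAbs = n → g x = g y := by
  intro n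
  induction n using Nat.strong_induction_on with
  | _ n ih =>
    intro x y hx hy hn
    by_cases hxy : x = y
    · rw [hxy]
    · obtain ⟨i, hi⟩ : ∃ i, x i ≠ y i := by
        by_contra hc; push Not at hc; exact hxy (funext hc)
      have hsplit : ∀ w : V d, ∑ j, (w j - y j).natAbs =
          (w i - y i).natAbs + ∑ j ∈ univ.erase i, (w j - y j).natAbs := fun w =>
        (Finset.add_sum_erase univ (fun j => (w j - y j).natAbs) (mem_univ i)).symm
      rcases lt_or_gt_of_ne hi with hlt | hgt
      · have h1 : g (x + stp i) = g x := h x i hx (by have := (hy i).2; omega)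
        rw [← h1]
        refine ih _ ?_ (x + stp i) y ?_ hy rfl
        · rw [← hn, hsplit x, hsplit (x + stp i)]
          have e1 : ∑ j ∈ univ.erase i, ((x + stp i) j - y j).natAbs =
              ∑ j ∈ univ.erase i, (x j - y j).natAbs :=
            sum_congr rfl fun j hj => by rw [Pi.add_apply, stp_ne (ne_of_mem_erase hj), add_zero]
          rw [e1]
          simp only [Pi.add_apply, stp_same]
          omega
        · intro j
          by_cases hj : j = i
          · subst hj
            simp only [Pi.add_apply, stp_same]
            have := (hx j).1; have := (hy j).2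
            constructor <;> omega
          · simp only [Pi.add_apply, stp_ne hj, add_zero]; exact hx j
      · have hx' : ∀ j, lo j ≤ (x - stp i) j ∧ (x - stp i) j ≤ up j := by
          intro j
          by_cases hj : j = i
          · subst hj
            simp only [Pi.sub_apply, stp_same]
            have := (hx j).2; have := (hy j).1
            constructor <;> omega
          · simp only [Pi.sub_apply, stp_ne hj, sub_zero]; exact hx j
        have h1 : g (x - stp i + stp i) = g (x - stp i) := h _ i hx' (by
          simp only [Pi.sub_apply, stp_same]; have := (hx i).2; omega)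
        rw [sub_add_cancel] at h1
        rw [h1]
        refine ih _ ?_ (x - stp i) y hx' hy rfl
        rw [← hn, hsplit x, hsplit (x - stp i)]
        have e1 : ∑ j ∈ univ.erase i, ((x - stp i) j - y j).natAbs =
            ∑ j ∈ univ.erase i, (x j - y j).natAbs :=
          sum_congr rfl fun j hj => by rw [Pi.sub_apply, stp_ne (ne_of_mem_erase hj), sub_zero]
        rw [e1]
        simp only [Pi.sub_apply, stp_same]
        omega

lemma nm_sub_le_iff {x c : V d} {s : ℕ} : nm (x - c) ≤ s ↔ ∀ j, c j - s ≤ x j ∧ x j ≤ c j + s := by
  rw [nm_le_iff]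
  refine forall_congr' fun j => ?_
  rw [Pi.sub_apply]; omega

theorem bx : S_BOX := by
  intro d α g c s h x y hx hy
  refine prod_conn g (fun j => c j - s) (fun j => c j + s) (fun z i hz hi => ?_) _ x y
    (nm_sub_le_iff.mp hx) (nm_sub_le_iff.mp hy) rfl
  refine h z i (nm_sub_le_iff.mpr hz) (nm_sub_le_iff.mpr fun j => ?_)
  by_cases hj : j = i
  · subst hj; simp only [Pi.add_apply, stp_same]
    have := (hz j).1
    exact ⟨by omega, hi⟩
  · simp only [Pi.add_apply, stp_ne hj, add_zero]; exact hz j

theorem ann : S_ANN := by
  intro d hd α g c r s h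
  -- slices
  have slice : ∀ (i : Fin d) (x y : V d), x i = y i → r < (x i - c i).natAbs → nm (x - c) ≤ s →
      nm (y - c) ≤ s → g x = g y := by
    intro i x y hxy hr hx hy
    rw [nm_sub_le_iff] at hx hy
    have hxi := hx i
    refine prod_conn g (fun j => if j = i then x i else c j - s)
      (fun j => if j = i then x i else c j + s) (fun z k hz hk => ?_) _ x y ?_ ?_ rfl
    · have hki : k ≠ i := by
        rintro rfl
        simp only [if_true] at hk
        have := (hz k).1
        simp only [if_true] at this
        omega
      rw [if_neg hki] at hk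
      have hzi : z i = x i := by
        have := hz i; simp only [if_true] at this; omega
      have hz' : nm (z - c) ≤ s := by
        rw [nm_sub_le_iff]; intro j
        by_cases hj : j = i
        · subst hj; rw [hzi]; exact hxi
        · have := hz j; rwa [if_neg hj, if_neg hj] at this
      have hzr : r < nm (z - c) := lt_nm_iff.mpr ⟨i, by rw [Pi.sub_apply, hzi]; exact hr⟩
      refine h z k hzr hz' (lt_nm_iff.mpr ⟨i, ?_⟩) ?_
      · rw [Pi.sub_apply, Pi.add_apply, stp_ne hki.symm, add_zero, hzi]; exact hr
      · rw [nm_sub_le_iff] at hz' ⊢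
        intro j
        by_cases hj : j = k
        · subst hj; simp only [Pi.add_apply, stp_same]
          have := (hz' j).1
          exact ⟨by omega, hk⟩
        · simp only [Pi.add_apply, stp_ne hj, add_zero]; exact hz' j
    · intro j
      by_cases hj : j = i
      · subst hj; simp
      · rw [if_neg hj, if_neg hj]; exact hx j
    · intro j
      by_cases hj : j = i
      · subst hj; simp [hxy]
      · rw [if_neg hj, if_neg hj]; exact hy j
  -- two different coordinates
  have two : ∀ (i j : Fin d) (x y : V d), i ≠ j → r < (x i - c i).natAbs →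
      r < (y j - c j).natAbs → nm (x - c) ≤ s → nm (y - c) ≤ s → g x = g y := by
    intro i j x y hij h1 h2 hx hy
    set w : V d := fun k => if k = i then x i else if k = j then y j else c k with hw
    have hwi : w i = x i := by simp [hw]
    have hwj : w j = y j := by simp [hw, hij.symm]
    have hws : nm (w - c) ≤ s := by
      rw [nm_sub_le_iff] at hx hy ⊢
      intro k
      simp only [hw]
      split_ifs with h3 h4
      · subst h3; exact hx k
      · subst h4; exact hy k
      · constructor <;> omega
    rw [slice i x w hwi.symm h1 hx hws, slice j w y hwj (by rw [hwj]; exact h2) hws hy]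
  intro x y hx1 hx2 hy1 hy2
  obtain ⟨i, hi⟩ := lt_nm_iff.mp hx1
  obtain ⟨j, hj⟩ := lt_nm_iff.mp hy1
  rw [Pi.sub_apply] at hi hj
  by_cases hij : i = j
  · subst hij
    obtain ⟨k, hk⟩ : ∃ k : Fin d, k ≠ i := by
      have : Nontrivial (Fin d) := Fin.nontrivial_iff_two_le.mpr hd
      exact exists_ne i
    set w : V d := fun l => if l = k then c k + s else c l with hw
    have hwk : w k = c k + s := by simp [hw]
    have hws : nm (w - c) ≤ s := by
      rw [nm_sub_le_iff]
      intro l
      simp only [hw]
      split_ifs with h3
      · subst h3; constructor <;> omega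
      · constructor <;> omega
    have hwr : r < (w k - c k).natAbs := by rw [hwk]; omega
    rw [two i k x w hk.symm hi hwr hx2 hws, two k i w y hk hwr hj hws hy2]
  · exact two i j x y hij hi hj hx2 hy2

theorem simple : S_SIMPLE := by
  intro d O S hSO hconn e he f hf m hm
  let H : SimpleGraph (E d) :=
    { Adj := fun a b => a ≠ b ∧ a ∈ S ∧ b ∈ S ∧ nm (b.1 - a.1) ≤ 1
      symm := ⟨fun a b h => ⟨h.1.symm, h.2.2.1, h.2.1, by rw [nm_sub_comm]; exact h.2.2.2⟩⟩
      loopless := ⟨fun a h => h.1 rfl⟩ }
  have hreach : H.Reachable e f := by
    have := hconn e he f hf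
    clear hm
    induction this with
    | refl => exact SimpleGraph.Reachable.refl _
    | @tail b c _ hbc ih =>
      by_cases hb : b = c
      · subst hb; exact ih hf
      · have hadj : H.Adj b c := ⟨hb, hbc⟩
        exact (ih hbc.1).trans hadj.reachable
  obtain ⟨p, hp⟩ := hreach.exists_isPath
  have hlen : ∀ a b : E d, ∀ q : H.Walk a b, nm (b.1 - a.1) ≤ q.length := by
    intro a b q
    induction q with
    | nil => simp
    | @cons a c b hadj q ih =>
      have h1 := nm_tri b.1 c.1 a.1
      have h2 : nm (c.1 - a.1) ≤ 1 := hadj.2.2.2
      rw [SimpleGraph.Walk.length_cons]; omega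
  have hml : m ≤ p.length := hm.trans (hlen e f p)
  refine ⟨p.getVert, by simp, fun k hk => ?_, fun k hk => ?_, fun j k hj hk hjk => ?_⟩
  · apply hSO
    rcases k with _ | k
    · simpa using he
    · have := p.adj_getVert_succ (i := k) (by omega)
      exact this.2.2.1
  · have := p.adj_getVert_succ (i := k) (by omega)
    exact this.2.2.2
  · exact hp.getVert_injOn (by simp only [Set.mem_ofPred_eq]; omega)
      (by simp only [Set.mem_ofPred_eq]; omega) hjk

end Pool.Agent.W844.VG
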