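import Pool.Agent.W844.VG.Basic

/-!
# MP_b4265e_pr: law of large numbers for locally dependent events
-/

set_option autoImplicit false

open Finset MeasureTheory ProbabilityTheory
open scoped Classical

namespace Pool.Agent.W844.VG

theorem cheb : S_CHEB := by
  intro d Ω _ μ _ A N r ρ hρ hA hmean hind
  set B := box d N with hB
  set a : V d → ℝ := fun v => μ.real (A v) with ha
  set f : V d → Ω → ℝ := fun v => (A v).indicator (fun _ => (1 : ℝ)) with hf
  have hfi : ∀ v, Integrable (f v) μ := fun v =>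
    (integrable_const (1 : ℝ)).indicator (hA v)
  have hfint : ∀ v, ∫ ω, f v ω ∂μ = a v := fun v => by
    rw [hf, integral_indicator_const _ (hA v)]; simp [ha]
  have hff : ∀ v w, (fun ω => f v ω * f w ω) = (A v ∩ A w).indicator (fun _ => (1 : ℝ)) := by
    intro v w; funext ω
    simp only [hf, Set.indicator_apply, Set.mem_inter_iff]
    by_cases h1 : ω ∈ A v <;> by_cases h2 : ω ∈ A w <;> simp [h1, h2]
  have hffint : ∀ v w, ∫ ω, f v ω * f w ω ∂μ = μ.real (A v ∩ A w) := fun v w => by
    rw [hff, integral_indicator_const _ ((hA v).inter (hA w))]; simp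
  have hffi : ∀ v w, Integrable (fun ω => f v ω * f w ω) μ := fun v w => by
    rw [hff]; exact (integrable_const (1 : ℝ)).indicator ((hA v).inter (hA w))
  have hcov : ∀ v w, ∫ ω, (f v ω - a v) * (f w ω - a w) ∂μ =
      μ.real (A v ∩ A w) - a v * a w := by
    intro v w
    have h1 : (fun ω => (f v ω - a v) * (f w ω - a w)) =
        fun ω => f v ω * f w ω - a w * f v ω - a v * f w ω + a v * a w := by
      funext ω; ring
    rw [h1, integral_add, integral_sub, integral_sub, hffint, integral_const_mul,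
      integral_const_mul, hfint, hfint]
    · simp; ring
    · exact hffi v w
    · exact (hfi v).const_mul _
    · exact (hffi v w).sub ((hfi v).const_mul _)
    · exact (hfi w).const_mul _
    · exact ((hffi v w).sub ((hfi v).const_mul _)).sub ((hfi w).const_mul _)
    · exact integrable_const _
  have hcovi : ∀ v w, Integrable (fun ω => (f v ω - a v) * (f w ω - a w)) μ := by
    intro v w
    have h1 : (fun ω => (f v ω - a v) * (f w ω - a w)) =
        fun ω => f v ω * f w ω - a w * f v ω - a v * f w ω + a v * a w := by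
      funext ω; ring
    rw [h1]
    exact (((hffi v w).sub ((hfi v).const_mul _)).sub ((hfi w).const_mul _)).add
      (integrable_const _)
  -- second moment
  set Y : Ω → ℝ := fun ω => ∑ v ∈ B, (f v ω - a v) with hY
  have hY2 : (fun ω => Y ω ^ 2) = fun ω => ∑ v ∈ B, ∑ w ∈ B, (f v ω - a v) * (f w ω - a w) := by
    funext ω
    rw [hY, sq, sum_mul_sum]
  have hYint : ∫ ω, Y ω ^ 2 ∂μ = ∑ v ∈ B, ∑ w ∈ B, (μ.real (A v ∩ A w) - a v * a w) := by
    rw [hY2, integral_finsetSum _ fun v _ => integrable_finsetSum _ fun w _ => hcovi v w]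
    refine sum_congr rfl fun v _ => ?_
    rw [integral_finsetSum _ fun w _ => hcovi v w]
    exact sum_congr rfl fun w _ => hcov v w
  have hYi : Integrable (fun ω => Y ω ^ 2) μ := by
    rw [hY2]
    exact integrable_finsetSum _ fun v _ => integrable_finsetSum _ fun w _ => hcovi v w
  have hcardB : (B.card : ℝ) = (2 * N + 1) ^ d := by rw [hB, card_box]; push_cast; ring
  have hvar : ∫ ω, Y ω ^ 2 ∂μ ≤ (2 * N + 1) ^ d * (2 * r + 1) ^ d := by
    rw [hYint]
    have h1 : ∀ v ∈ B, ∑ w ∈ B, (μ.real (A v ∩ A w) - a v * a w) ≤ (2 * r + 1) ^ d := by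
      intro v hv
      have h2 : ∀ w ∈ B, μ.real (A v ∩ A w) - a v * a w ≤ if nm (w - v) ≤ r then 1 else 0 := by
        intro w hw
        split_ifs with h
        · have e1 : μ.real (A v ∩ A w) ≤ 1 := measureReal_le_one
          have e2 : 0 ≤ a v * a w := mul_nonneg measureReal_nonneg measureReal_nonneg
          linarith
        · have := hind v hv w hw (by rw [nm_sub_comm]; omega)
          rw [this]; simp [ha]
      refine (sum_le_sum h2).trans ?_
      rw [← sum_filter, sum_const, nsmul_eq_mul, mul_one]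
      have h3 := card_ball_le (B.filter fun w => nm (w - v) ≤ r) v r
        fun w hw => (mem_filter.mp hw).2
      exact_mod_cast h3
    refine (sum_le_sum h1).trans ?_
    rw [sum_const, nsmul_eq_mul, hcardB]
  -- Markov
  set t : ℝ := (ρ / 2 * (2 * N + 1) ^ d) ^ 2 with ht
  have hNp : (0 : ℝ) < (2 * N + 1) ^ d := by positivity
  have ht0 : 0 < t := by positivity
  have hsub : {ω | ((B.filter fun v => ω ∈ A v).card : ℝ) ≤ ρ / 2 * (2 * N + 1) ^ d} ⊆
      {ω | t ≤ Y ω ^ 2} := by
    intro ω hω
    have hω' : ((B.filter fun v => ω ∈ A v).card : ℝ) ≤ ρ / 2 * (2 * N + 1) ^ d := hω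
    have h1 : ∑ v ∈ B, f v ω = ((B.filter fun v => ω ∈ A v).card : ℝ) := by
      simp only [hf, Set.indicator_apply]
      rw [← sum_filter, sum_const, nsmul_eq_mul, mul_one]
    have h2 : ρ * (2 * N + 1) ^ d ≤ ∑ v ∈ B, a v := by
      have := sum_le_sum fun v hv => hmean v hv
      rw [sum_const, nsmul_eq_mul, hcardB] at this
      linarith
    have h3 : Y ω ≤ -(ρ / 2 * (2 * N + 1) ^ d) := by
      rw [hY]; simp only
      rw [sum_sub_distrib, h1]; linarith
    show t ≤ Y ω ^ 2
    rw [ht, ← neg_sq (Y ω)]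
    exact pow_le_pow_left₀ (by positivity) (by linarith) 2
  have hmarkov : t * μ.real {ω | t ≤ Y ω ^ 2} ≤ ∫ ω, Y ω ^ 2 ∂μ :=
    mul_meas_ge_le_integral_of_nonneg (Filter.Eventually.of_forall fun ω => sq_nonneg _) hYi t
  have h4 : μ.real {ω | ((B.filter fun v => ω ∈ A v).card : ℝ) ≤ ρ / 2 * (2 * N + 1) ^ d} ≤
      μ.real {ω | t ≤ Y ω ^ 2} := measureReal_mono hsub
  have h5 : μ.real {ω | t ≤ Y ω ^ 2} ≤ (2 * N + 1) ^ d * (2 * r + 1) ^ d / t := by
    rw [le_div_iff₀ ht0]; linarith
  refine h4.trans (h5.trans (le_of_eq ?_))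
  rw [ht]; field_simp; ring

end Pool.Agent.W844.VG
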