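import Pool.Agent.W844.VG.Basic

/-!
# MP_b4265e_pr: mod 2 Poincare lemma and minimal cutsets
-/

set_option autoImplicit false

open Finset
open scoped Classical

namespace Pool.Agent.W844.VG

variable {d : ℕ}

lemma prim (f : ℤ → ZMod 2) : ∃ F : ℤ → ZMod 2, ∀ t, F (t + 1) = F t + f t := by
  refine ⟨fun n => match n with
    | Int.ofNat n => ∑ k ∈ range n, f k
    | Int.negSucc n => - ∑ k ∈ range (n + 1), f (-((k : ℤ) + 1)), ?_⟩
  intro t
  rcases t with n | n
  · show (match (Int.ofNat n + 1 : ℤ) with
      | Int.ofNat n => ∑ k ∈ range n, f k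
      | Int.negSucc n => - ∑ k ∈ range (n + 1), f (-((k : ℤ) + 1))) = _
    have : (Int.ofNat n + 1 : ℤ) = Int.ofNat (n + 1) := rfl
    rw [this]
    exact sum_range_succ _ _
  · rcases n with _ | m
    · have : (Int.negSucc 0 + 1 : ℤ) = Int.ofNat 0 := rfl
      rw [this]
      show (0 : ZMod 2) = - ∑ k ∈ range 1, f (-((k : ℤ) + 1)) + f (Int.negSucc 0)
      rw [sum_range_one]
      have h2 : f (-(((0 : ℕ) : ℤ) + 1)) = f (Int.negSucc 0) := by congr 1
      rw [h2]; ring
    · have : (Int.negSucc (m + 1) + 1 : ℤ) = Int.negSucc m := rfl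
      rw [this]
      show - ∑ k ∈ range (m + 1), f (-((k : ℤ) + 1)) =
        - ∑ k ∈ range (m + 1 + 1), f (-((k : ℤ) + 1)) + f (Int.negSucc (m + 1))
      rw [sum_range_succ (fun k : ℕ => f (-((k : ℤ) + 1))) (m + 1)]
      have h2 : f (-(((m + 1 : ℕ) : ℤ) + 1)) = f (Int.negSucc (m + 1)) := by
        congr 1
      rw [h2]; ring

theorem poin : S_POIN := by
  intro d κ hκ
  choose P hP using prim
  have key : ∀ s : Finset (Fin d), ∃ g : V d → ZMod 2, ∀ x, ∀ i ∈ s, g (x + stp i) = g x + κ x i := by
    intro s
    induction s using Finset.induction_on with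
    | empty => exact ⟨fun _ => 0, fun x i hi => absurd hi (notMem_empty i)⟩
    | insert k s hk ih =>
      obtain ⟨g, hg⟩ := ih
      set κ' : V d → Fin d → ZMod 2 := fun x i => κ x i - (g (x + stp i) - g x) with hκ'
      have h0 : ∀ x, ∀ i ∈ s, κ' x i = 0 := by
        intro x i hi
        simp only [hκ', hg x i hi]; ring
      have hsq : ∀ x i j, κ' x i + κ' (x + stp i) j = κ' x j + κ' (x + stp j) i := by
        intro x i j
        have h1 := hκ x i j
        have h2 : x + stp i + stp j = x + stp j + stp i := by abel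
        simp only [hκ', h2]
        linear_combination h1
      have hinv : ∀ x, ∀ i ∈ s, κ' (x + stp i) k = κ' x k := by
        intro x i hi
        have h1 := hsq x i k
        rw [h0 x i hi, h0 (x + stp k) i hi, zero_add, add_zero] at h1
        exact h1
      set f : V d → ℤ → ZMod 2 := fun x t => κ' (Function.update x k t) k with hf
      refine ⟨fun x => g x + P (f x) (x k), fun x i hi => ?_⟩
      rcases mem_insert.mp hi with rfl | hi
      · have h1 : f (x + stp i) = f x := by
          funext t
          simp only [hf]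
          congr 1
          funext j
          by_cases hj : j = i
          · subst hj; simp
          · simp [Function.update_of_ne hj, stp_ne hj]
        have h2 : (x + stp i) i = x i + 1 := by simp [stp_same]
        have h3 : f x (x i) = κ' x i := by simp only [hf, Function.update_eq_self]
        show g (x + stp i) + P (f (x + stp i)) ((x + stp i) i) = _
        rw [h1, h2, hP, h3]
        simp only [hκ']; ring
      · have hik : k ≠ i := fun h => hk (h ▸ hi)
        have h1 : f (x + stp i) = f x := by
          funext t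
          simp only [hf]
          have h4 : Function.update (x + stp i) k t = Function.update x k t + stp i := by
            funext j
            by_cases hj : j = k
            · subst hj; simp [stp_ne hik]
            · simp [Function.update_of_ne hj]
          rw [h4, hinv _ i hi]
        have h2 : (x + stp i) k = x k := by simp [stp_ne hik]
        show g (x + stp i) + P (f (x + stp i)) ((x + stp i) k) = _
        rw [h1, h2, hg x i hi]; ring
  obtain ⟨g, hg⟩ := key univ
  exact ⟨g, fun x i => hg x i (mem_univ i)⟩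

lemma zmod2_ne {a b : ZMod 2} (h : a ≠ b) : a = b + 1 := by
  revert a b; decide

lemma nm_stp_sub (i j : Fin d) : nm (stp i - stp j : V d) ≤ 1 := by
  rw [nm_le_iff]; intro k
  rw [Pi.sub_apply, stp_apply, stp_apply]
  split_ifs <;> simp

theorem cut : S_CUT := by
  intro d g u v hfin huv
  -- minimal boundary
  have hex : ∃ n : ℕ, ∃ g' : V d → ZMod 2, bd g' ⊆ bd g ∧ g' u ≠ g' v ∧ (bd g').ncard = n :=
    ⟨_, g, subset_rfl, huv, rfl⟩
  obtain ⟨g', hsub, huv', hcard⟩ := Nat.find_spec hex
  have hmin : ∀ g'' : V d → ZMod 2, bd g'' ⊆ bd g' → g'' u ≠ g'' v → bd g'' = bd g' := by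
    intro g'' h1 h2
    by_contra hne
    have hss : bd g'' ⊂ bd g' := lt_of_le_of_ne h1 hne
    have hlt : (bd g'').ncard < (bd g').ncard := Set.ncard_lt_ncard hss (hfin.subset hsub)
    rw [hcard] at hlt
    exact Nat.find_min hex hlt ⟨g'', h1.trans hsub, h2, rfl⟩
  refine ⟨g', hsub, huv', ?_⟩
  intro e he f hf
  by_contra hnot
  set R : E d → E d → Prop := fun a b => a ∈ bd g' ∧ b ∈ bd g' ∧ nm (b.1 - a.1) ≤ 1 with hR
  set K : Set (E d) := {h | h ∈ bd g' ∧ Relation.ReflTransGen R e h} with hK
  have hstep : ∀ a b : E d, a ∈ K → b ∈ bd g' → nm (b.1 - a.1) ≤ 1 → b ∈ K :=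
    fun a b ha hb hab => ⟨hb, ha.2.tail ⟨ha.1, hb, hab⟩⟩
  set κ : V d → Fin d → ZMod 2 := fun x i => if (x, i) ∈ K then 1 else 0 with hκ
  -- differences of g'
  have hD : ∀ x i, (x, i) ∈ bd g' → g' (x + stp i) - g' x = 1 := by
    intro x i h
    have := zmod2_ne (mem_bd.mp h)
    simp only at this
    rw [this]; ring
  have hD0 : ∀ x i, (x, i) ∉ bd g' → g' (x + stp i) - g' x = 0 := by
    intro x i h
    have : g' (x + stp i) = g' x := by
      by_contra hne; exact h hne
    rw [this]; ring
  have hκD : ∀ x i, ((x, i) ∈ bd g' → (x, i) ∈ K) → κ x i = g' (x + stp i) - g' x := by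
    intro x i h
    by_cases hb : (x, i) ∈ bd g'
    · rw [hD x i hb]; simp [hκ, h hb]
    · rw [hD0 x i hb]
      have : (x, i) ∉ K := fun h' => hb h'.1
      simp [hκ, this]
  have hsquare : ∀ x i j, κ x i + κ (x + stp i) j = κ x j + κ (x + stp j) i := by
    intro x i j
    by_cases hany : (x, i) ∈ K ∨ (x + stp i, j) ∈ K ∨ (x, j) ∈ K ∨ (x + stp j, i) ∈ K
    · have hall : ∀ b : E d, b ∈ bd g' → (b.1 = x ∨ b.1 = x + stp i ∨ b.1 = x + stp j) → b ∈ K := by
        intro b hb hb1
        have hdist : ∀ a : E d, (a.1 = x ∨ a.1 = x + stp i ∨ a.1 = x + stp j) →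
            nm (b.1 - a.1) ≤ 1 := by
          intro a ha
          rcases hb1 with h | h | h <;> rcases ha with h' | h' | h' <;> rw [h, h']
          · simp
          · rw [nm_sub_comm]; simp
          · rw [nm_sub_comm]; simp
          · simp
          · simp
          · have : x + stp i - (x + stp j) = stp i - stp j := by abel
            rw [this]; exact nm_stp_sub i j
          · simp
          · have : x + stp j - (x + stp i) = stp j - stp i := by abel
            rw [this]; exact nm_stp_sub j i
          · simp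
        rcases hany with h | h | h | h
        · exact hstep _ b h hb (hdist _ (Or.inl rfl))
        · exact hstep _ b h hb (hdist _ (Or.inr (Or.inl rfl)))
        · exact hstep _ b h hb (hdist _ (Or.inl rfl))
        · exact hstep _ b h hb (hdist _ (Or.inr (Or.inr rfl)))
      rw [hκD x i (fun h => hall _ h (Or.inl rfl)),
        hκD (x + stp i) j (fun h => hall _ h (Or.inr (Or.inl rfl))),
        hκD x j (fun h => hall _ h (Or.inl rfl)),
        hκD (x + stp j) i (fun h => hall _ h (Or.inr (Or.inr rfl)))]
      have : x + stp i + stp j = x + stp j + stp i := by abel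
      rw [this]; ring
    · push Not at hany
      simp [hκ, hany]
  obtain ⟨g1, hg1⟩ := poin d κ hsquare
  have hbd1 : bd g1 = K := by
    ext ⟨x, i⟩
    rw [mem_bd]
    simp only
    rw [hg1 x i]
    by_cases h : (x, i) ∈ K
    · simp [hκ, h]
    · simp [hκ, h]
  have hbd2 : bd (fun x => g' x - g1 x) = bd g' \ K := by
    ext ⟨x, i⟩
    rw [mem_bd, Set.mem_sdiff]
    simp only
    rw [hg1 x i]
    by_cases h : (x, i) ∈ K
    · have h1 := hD x i h.1
      have h2 : κ x i = 1 := by simp [hκ, h]
      have h3 : g' (x + stp i) - (g1 x + κ x i) = g' x - g1 x := by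
        rw [h2]; linear_combination h1
      simp [h3, h]
    · have h2 : κ x i = 0 := by simp [hκ, h]
      rw [h2]
      constructor
      · intro h3
        refine ⟨fun h4 => h3 ?_, h⟩
        rw [h4]; ring
      · rintro ⟨h3, -⟩ h4
        apply h3
        linear_combination h4
  by_cases h1 : g1 u ≠ g1 v
  · have h2 := hmin g1 (by rw [hbd1]; exact fun a ha => ha.1) h1
    rw [hbd1] at h2
    have : f ∈ K := by rw [h2]; exact hf
    exact hnot this.2
  · push Not at h1
    have h3 : (fun x => g' x - g1 x) u ≠ (fun x => g' x - g1 x) v := by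
      simp only [h1]
      intro h4
      exact huv' (sub_left_inj.mp h4)
    have h2 := hmin _ (by rw [hbd2]; exact Set.sdiff_subset) h3
    rw [hbd2] at h2
    have h4 : e ∈ bd g' \ K := by rw [h2]; exact he
    exact h4.2 ⟨he, Relation.ReflTransGen.refl⟩

end Pool.Agent.W844.VG
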