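import Pool.Agent.W844.VG.Basic

/-!
# MP_b4265e_pr: the flow inequality on the lattice (Polya urn flow in three directions)
-/

set_option autoImplicit false

open Finset
open scoped Classical

namespace Pool.Agent.W844.VG.Flow

variable {d : ℕ}

/-- three directions -/
def dr (hd : 3 ≤ d) (t : Fin 3) : Fin d := Fin.castLE hd t

lemma dr_inj (hd : 3 ≤ d) : Function.Injective (dr hd) := Fin.castLE_injective hd

/-- the point `z + c` -/
def pt (hd : 3 ≤ d) (z : V d) (c : Fin 3 → ℕ) : V d := z + ∑ t : Fin 3, (c t : ℤ) • stp (dr hd t)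

lemma pt_apply (hd : 3 ≤ d) (z : V d) (c : Fin 3 → ℕ) (t : Fin 3) :
    pt hd z c (dr hd t) = z (dr hd t) + c t := by
  unfold pt
  rw [Pi.add_apply, Finset.sum_apply, Finset.sum_eq_single t]
  · simp [stp_same]
  · intro s _ hs
    rw [Pi.smul_apply, stp_ne (fun h => hs (dr_inj hd h).symm)]; simp
  · intro h; exact absurd (mem_univ t) h

lemma pt_single (hd : 3 ≤ d) (z : V d) (c : Fin 3 → ℕ) (t : Fin 3) :
    pt hd z (c + Pi.single t 1) = pt hd z c + stp (dr hd t) := by
  unfold pt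
  rw [add_assoc]
  congr 1
  have h1 : ∀ s : Fin 3, (((c + Pi.single t 1 : Fin 3 → ℕ) s : ℕ) : ℤ) • (stp (dr hd s) : V d) =
      (c s : ℤ) • stp (dr hd s) + (if s = t then stp (dr hd s) else 0) := by
    intro s
    by_cases hs : s = t
    · subst hs; simp [add_smul]
    · simp [hs]
  rw [Finset.sum_congr rfl fun s _ => h1 s, sum_add_distrib, Finset.sum_ite_eq' univ t]
  simp

lemma pt_inj (hd : 3 ≤ d) (z : V d) : Function.Injective (pt hd z) := by
  intro c c' h
  funext t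
  have := congrFun h (dr hd t)
  rw [pt_apply, pt_apply] at this
  omega

lemma nm_pt_sub (hd : 3 ≤ d) (z : V d) (c : Fin 3 → ℕ) : nm (pt hd z c - z) ≤ ∑ t, c t := by
  unfold pt
  rw [add_sub_cancel_left]
  have : ∀ s : Finset (Fin 3), nm (∑ t ∈ s, (c t : ℤ) • (stp (dr hd t) : V d)) ≤ ∑ t ∈ s, c t := by
    intro s
    induction s using Finset.induction_on with
    | empty => simp
    | insert a s ha ih =>
      rw [sum_insert ha, sum_insert ha]
      have h1 := nm_add_le ((c a : ℤ) • (stp (dr hd a) : V d)) (∑ t ∈ s, (c t : ℤ) • (stp (dr hd t) : V d))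
      rw [nm_zsmul_stp] at h1
      simp only [Int.natAbs_natCast] at h1
      omega
  exact this univ

/-- level `m` -/
def L (m : ℕ) : Finset (Fin 3 → ℕ) := Finset.piAntidiag univ m

lemma mem_L {m : ℕ} {c : Fin 3 → ℕ} : c ∈ L m ↔ ∑ t, c t = m := by
  unfold L; simp [mem_piAntidiag]

lemma card_L (m : ℕ) : (L m).card ≤ (m + 1) * (m + 1) := by
  have h : (L m).card ≤ (range (m + 1) ×ˢ range (m + 1)).card := by
    refine card_le_card_of_injOn (fun c => (c 0, c 1)) (fun c hc => ?_) (fun c hc c' hc' h => ?_)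
    · rw [mem_coe, mem_L, Fin.sum_univ_three] at hc
      simp only [mem_coe, mem_product, mem_range]; omega
    · rw [mem_coe, mem_L, Fin.sum_univ_three] at hc hc'
      simp only [Prod.mk.injEq] at h
      funext t
      fin_cases t
      · exact h.1
      · exact h.2
      · show c 2 = c' 2
        omega
  rwa [card_product, card_range] at h

/-- normalising factor -/
noncomputable def al (m : ℕ) : ℝ := 2 / (((m : ℝ) + 1) * ((m : ℝ) + 2))

lemma al_pos (m : ℕ) : 0 < al m := by unfold al; positivity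

/-- weights of the flow -/
noncomputable def th (m : ℕ) (c : Fin 3 → ℕ) (t : Fin 3) : ℝ := al m * (((c t : ℝ) + 1) / ((m : ℝ) + 3))

lemma th_nonneg (m : ℕ) (c : Fin 3 → ℕ) (t : Fin 3) : 0 ≤ th m c t := by
  unfold th; have := al_pos m; positivity

lemma sum_th {m : ℕ} {c : Fin 3 → ℕ} (hc : c ∈ L m) : ∑ t, th m c t = al m := by
  rw [mem_L] at hc
  unfold th
  rw [← mul_sum, ← sum_div, sum_add_distrib]
  have h1 : ∑ t : Fin 3, (c t : ℝ) = m := by exact_mod_cast congrArg (Nat.cast (R := ℝ)) hc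
  rw [h1]
  have : (0 : ℝ) < (m : ℝ) + 3 := by positivity
  simp only [sum_const, card_univ, Fintype.card_fin, nsmul_eq_mul]
  push_cast
  field_simp

lemma th_le {m : ℕ} {c : Fin 3 → ℕ} (hc : c ∈ L m) (t : Fin 3) : th m c t ≤ al m := by
  rw [← sum_th hc]
  exact single_le_sum (fun s _ => th_nonneg m c s) (mem_univ t)

lemma sum_shift (m : ℕ) (t : Fin 3) (F : (Fin 3 → ℕ) → ℝ) :
    ∑ c ∈ L m, ((c t : ℝ) + 1) * F (c + Pi.single t 1) = ∑ c ∈ L (m + 1), (c t : ℝ) * F c := by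
  have himg : (L m).image (fun c => c + Pi.single t 1) = (L (m + 1)).filter fun c => c t ≠ 0 := by
    ext c
    simp only [mem_image, mem_filter, mem_L]
    constructor
    · rintro ⟨c', h, rfl⟩
      refine ⟨?_, by simp⟩
      simp only [Pi.add_apply, sum_add_distrib, h]
      simp
    · rintro ⟨h1, h2⟩
      refine ⟨c - Pi.single t 1, ?_, ?_⟩
      · have h3 : ∀ s, (c - Pi.single t 1 : Fin 3 → ℕ) s + (Pi.single t 1 : Fin 3 → ℕ) s = c s := by
          intro s
          by_cases hs : s = t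
          · subst hs; simp only [Pi.sub_apply, Pi.single_eq_same]; omega
          · simp [hs]
        have h4 := Finset.sum_congr (rfl : (univ : Finset (Fin 3)) = univ) fun s _ => h3 s
        rw [sum_add_distrib, h1] at h4
        have h5 : ∑ s : Fin 3, (Pi.single t 1 : Fin 3 → ℕ) s = 1 := by simp
        omega
      · funext s
        by_cases hs : s = t
        · subst hs; simp only [Pi.add_apply, Pi.sub_apply, Pi.single_eq_same]; omega
        · simp [hs]
  have h1 : ∑ c ∈ L (m + 1), (c t : ℝ) * F c =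
      ∑ c ∈ (L (m + 1)).filter fun c => c t ≠ 0, (c t : ℝ) * F c := by
    symm
    refine sum_filter_of_ne fun c _ h => ?_
    intro h0; apply h; rw [h0]; simp
  rw [h1, ← himg, sum_image]
  · refine sum_congr rfl fun c _ => ?_
    simp
  · intro c _ c' _ h
    simpa using h

/-- average over level `m` -/
noncomputable def Av (hd : 3 ≤ d) (g : V d → ℝ) (z : V d) (m : ℕ) : ℝ :=
  al m * ∑ c ∈ L m, g (pt hd z c)

lemma Av_step (hd : 3 ≤ d) (g : V d → ℝ) (z : V d) (m : ℕ) :
    Av hd g z m - Av hd g z (m + 1) = ∑ c ∈ L m, ∑ t : Fin 3,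
      th m c t * (g (pt hd z c) - g (pt hd z c + stp (dr hd t))) := by
  have h1 : ∑ c ∈ L m, ∑ t : Fin 3, th m c t * (g (pt hd z c) - g (pt hd z c + stp (dr hd t))) =
      ∑ c ∈ L m, al m * g (pt hd z c) -
        ∑ c ∈ L m, ∑ t : Fin 3, th m c t * g (pt hd z c + stp (dr hd t)) := by
    rw [← sum_sub_distrib]
    refine sum_congr rfl fun c hc => ?_
    rw [← sum_th hc, sum_mul, ← sum_sub_distrib]
    refine sum_congr rfl fun t _ => ?_
    ring
  have h2 : ∑ c ∈ L m, ∑ t : Fin 3, th m c t * g (pt hd z c + stp (dr hd t)) =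
      Av hd g z (m + 1) := by
    rw [sum_comm]
    have h3 : ∀ t : Fin 3, ∑ c ∈ L m, th m c t * g (pt hd z c + stp (dr hd t)) =
        al m / ((m : ℝ) + 3) * ∑ c ∈ L (m + 1), (c t : ℝ) * g (pt hd z c) := by
      intro t
      rw [← sum_shift m t (fun c => g (pt hd z c)), mul_sum]
      refine sum_congr rfl fun c _ => ?_
      rw [pt_single]; unfold th; ring
    rw [sum_congr rfl fun t _ => h3 t, ← mul_sum, sum_comm]
    have h4 : ∑ c ∈ L (m + 1), ∑ t : Fin 3, (c t : ℝ) * g (pt hd z c) =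
        ((m : ℝ) + 1) * ∑ c ∈ L (m + 1), g (pt hd z c) := by
      rw [mul_sum]
      refine sum_congr rfl fun c hc => ?_
      rw [← sum_mul]
      rw [mem_L] at hc
      have h1 : ∑ t : Fin 3, (c t : ℝ) = (m : ℝ) + 1 := by
        have := congrArg (Nat.cast (R := ℝ)) hc; push_cast at this; exact this
      rw [h1]
    rw [h4]
    unfold Av al
    have e1 : (0 : ℝ) < (m : ℝ) + 1 := by positivity
    have e2 : (0 : ℝ) < (m : ℝ) + 2 := by positivity
    have e3 : (0 : ℝ) < (m : ℝ) + 3 := by positivity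
    push_cast
    field_simp
    ring
  rw [h1, h2]
  unfold Av
  rw [mul_sum]

lemma Av_zero (hd : 3 ≤ d) (g : V d → ℝ) (z : V d) : Av hd g z 0 = g z := by
  have h : L 0 = {0} := by
    ext c
    rw [mem_L, mem_singleton]
    constructor
    · intro h
      funext t
      exact (sum_eq_zero_iff.mp h) t (mem_univ t)
    · rintro rfl; simp
  unfold Av al
  rw [h, sum_singleton]
  have : pt hd z 0 = z := by unfold pt; simp
  rw [this]; norm_num

lemma far (hd : 3 ≤ d) {z : V d} {M m : ℕ} {c : Fin 3 → ℕ} (hc : c ∈ L m)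
    (hm : 3 * (M + nm z + 1) ≤ m) : M < nm (pt hd z c) := by
  rw [mem_L, Fin.sum_univ_three] at hc
  have : ∃ t : Fin 3, M + nm z + 1 ≤ c t := by
    by_contra h
    push Not at h
    have h0 := h 0
    have h1 := h 1
    have h2 := h 2
    omega
  obtain ⟨t, ht⟩ := this
  rw [lt_nm_iff]
  refine ⟨dr hd t, ?_⟩
  rw [pt_apply]
  have := natAbs_le_nm z (dr hd t)
  omega

/-- telescoping -/
lemma tele (hd : 3 ≤ d) {g : V d → ℝ} {M : ℕ} (hg : ∀ x, M < nm x → g x = 0) {z : V d} {M' : ℕ}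
    (hM : 3 * (M + nm z + 1) ≤ M') :
    g z = ∑ m ∈ range M', ∑ c ∈ L m, ∑ t : Fin 3,
      th m c t * (g (pt hd z c) - g (pt hd z c + stp (dr hd t))) := by
  have h1 : ∑ m ∈ range M', (Av hd g z m - Av hd g z (m + 1)) = Av hd g z 0 - Av hd g z M' :=
    sum_range_sub' _ _
  have h2 : Av hd g z M' = 0 := by
    unfold Av
    rw [sum_eq_zero fun c hc => hg _ (far hd hc hM), mul_zero]
  rw [h2, sub_zero, Av_zero] at h1
  rw [← h1]
  exact sum_congr rfl fun m _ => Av_step hd g z m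

/-! ### scalar estimates -/

/-- the weight `(m+1)^(3/2)` -/
noncomputable def h32 (m : ℕ) : ℝ := ((m : ℝ) + 1) * Real.sqrt ((m : ℝ) + 1)

lemma h32_pos (m : ℕ) : 0 < h32 m := by
  unfold h32
  have : 0 < Real.sqrt ((m : ℝ) + 1) := Real.sqrt_pos.mpr (by positivity)
  positivity

lemma sum_h32 (M : ℕ) : ∑ m ∈ range M, 1 / h32 m ≤ 3 := by
  have key : ∀ M : ℕ, ∑ m ∈ range (M + 1), 1 / h32 m ≤ 3 - 2 / Real.sqrt ((M : ℝ) + 1) := by
    intro M
    induction M with
    | zero => simp [h32]; norm_num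
    | succ n ih =>
      rw [sum_range_succ]
      set x : ℝ := Real.sqrt ((n : ℝ) + 1) with hx
      set y : ℝ := Real.sqrt ((n : ℝ) + 1 + 1) with hy
      have hx2 : x ^ 2 = (n : ℝ) + 1 := Real.sq_sqrt (by positivity)
      have hy2 : y ^ 2 = (n : ℝ) + 1 + 1 := Real.sq_sqrt (by positivity)
      have hx0 : 0 < x := Real.sqrt_pos.mpr (by positivity)
      have hy0 : 0 < y := Real.sqrt_pos.mpr (by positivity)
      have hxy : x ≤ y := Real.sqrt_le_sqrt (by linarith)
      have h1 : h32 (n + 1) = y ^ 2 * y := by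
        unfold h32; push_cast; rw [hy2]
      have h2 : 1 / (y ^ 2 * y) ≤ 2 / x - 2 / y := by
        rw [div_sub_div _ _ hx0.ne' hy0.ne', div_le_div_iff₀ (by positivity) (by positivity)]
        have h3 : y ^ 2 - x ^ 2 = 1 := by rw [hx2, hy2]; ring
        have h4 : y - x = 1 / (y + x) := by
          field_simp
          nlinarith
        have h5 : 2 * y - x * 2 = 2 / (y + x) := by
          have : 2 * y - x * 2 = 2 * (y - x) := by ring
          rw [this, h4]; ring
        rw [h5, div_mul_eq_mul_div, le_div_iff₀ (by positivity)]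
        nlinarith [mul_pos hx0 hy0, mul_pos (mul_pos hy0 hy0) hy0]
      rw [h1]
      push_cast
      linarith
  rcases M with _ | M
  · simp
  · refine (key M).trans ?_
    have : 0 ≤ 2 / Real.sqrt ((M : ℝ) + 1) := by positivity
    linarith

/-- `1 / sqrt (1 + |n - k|)` -/
noncomputable def ph (n k : ℕ) : ℝ := 1 / Real.sqrt (1 + |(n : ℝ) - k|)

lemma ph_nonneg (n k : ℕ) : 0 ≤ ph n k := by unfold ph; positivity

lemma sum_ph (n b : ℕ) : ∑ k ∈ range b, ph n k ≤ 2 * Real.sqrt ((n : ℝ) + 1) + 2 * Real.sqrt b := by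
  have h1 : ∀ b : ℕ, b ≤ n + 1 → ∑ k ∈ range b, ph n k ≤
      2 * Real.sqrt ((n : ℝ) + 1) - 2 * Real.sqrt ((n : ℝ) + 1 - b) := by
    intro b
    induction b with
    | zero => intro _; simp
    | succ b ih =>
      intro hb
      rw [sum_range_succ]
      have h0 := ih (by omega)
      have hbn : (b : ℝ) ≤ n := by exact_mod_cast (by omega : b ≤ n)
      set x : ℝ := Real.sqrt ((n : ℝ) + 1 - b) with hx
      set y : ℝ := Real.sqrt ((n : ℝ) - b) with hy
      have hx2 : x ^ 2 = (n : ℝ) + 1 - b := Real.sq_sqrt (by linarith)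
      have hy2 : y ^ 2 = (n : ℝ) - b := Real.sq_sqrt (by linarith)
      have hx0 : 0 < x := Real.sqrt_pos.mpr (by linarith)
      have hy0 : 0 ≤ y := Real.sqrt_nonneg _
      have hph : ph n b = 1 / x := by
        unfold ph; rw [abs_of_nonneg (by linarith), hx]; congr 2; ring
      have h2 : 1 / x ≤ 2 * x - 2 * y := by
        rw [div_le_iff₀ hx0]
        nlinarith [sq_nonneg (x - y)]
      have h3 : Real.sqrt ((n : ℝ) + 1 - ((b + 1 : ℕ) : ℝ)) = y := by
        rw [hy]; congr 1; push_cast; ring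
      rw [h3, hph]; linarith
  have h2 : ∀ j : ℕ, ∑ k ∈ range (n + 1 + j), ph n k ≤
      2 * Real.sqrt ((n : ℝ) + 1) + 2 * Real.sqrt j := by
    intro j
    induction j with
    | zero =>
      have := h1 (n + 1) le_rfl
      push_cast at this ⊢
      simp only [sub_self, Real.sqrt_zero, mul_zero, sub_zero, add_zero] at this ⊢
      exact this
    | succ j ih =>
      rw [← add_assoc, sum_range_succ]
      set x : ℝ := Real.sqrt (j : ℝ) with hx
      set y : ℝ := Real.sqrt (((j + 1 : ℕ)) : ℝ) with hy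
      have hx2 : x ^ 2 = (j : ℝ) := Real.sq_sqrt (by positivity)
      have hy2 : y ^ 2 = (j : ℝ) + 1 := by rw [hy, Real.sq_sqrt (by positivity)]; push_cast; ring
      have hx0 : 0 ≤ x := Real.sqrt_nonneg _
      have hy0 : 0 < y := Real.sqrt_pos.mpr (by positivity)
      have hph : ph n (n + 1 + j) ≤ 1 / y := by
        unfold ph
        have e : |(n : ℝ) - ((n + 1 + j : ℕ) : ℝ)| = (j : ℝ) + 1 := by
          push_cast
          rw [show (n : ℝ) - (n + 1 + j) = -(j + 1) by ring, abs_neg, abs_of_nonneg (by positivity)]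
        rw [e]
        refine one_div_le_one_div_of_le hy0 ?_
        rw [hy]; refine Real.sqrt_le_sqrt ?_
        push_cast; linarith
      have h3 : 1 / y ≤ 2 * y - 2 * x := by
        rw [div_le_iff₀ hy0]
        nlinarith [sq_nonneg (x - y)]
      linarith
  by_cases hb : b ≤ n + 1
  · have := h1 b hb
    have e1 : 0 ≤ Real.sqrt ((n : ℝ) + 1 - b) := Real.sqrt_nonneg _
    have e2 : 0 ≤ Real.sqrt (b : ℝ) := Real.sqrt_nonneg _
    linarith
  · obtain ⟨j, rfl⟩ := Nat.exists_eq_add_of_le (show n + 1 ≤ b by omega)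
    have := h2 j
    have e2 : Real.sqrt (j : ℝ) ≤ Real.sqrt ((n + 1 + j : ℕ) : ℝ) := by
      refine Real.sqrt_le_sqrt ?_
      push_cast; linarith [Nat.cast_nonneg (α := ℝ) n]
    linarith

/-- the bracket -/
lemma bracket (n b : ℕ) (hb : 1 ≤ b) :
    ((n : ℝ) + 1) ^ ((1 : ℝ) / 8) * ∑ k ∈ range b, ph n k ≤ 12 * (b : ℝ) ^ ((5 : ℝ) / 8) := by
  have hb0 : (1 : ℝ) ≤ b := by exact_mod_cast hb
  have hbp : (0 : ℝ) < b := by linarith
  have hn0 : (0 : ℝ) ≤ n := Nat.cast_nonneg n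
  by_cases h : n ≤ 2 * b
  · have hnb : (n : ℝ) + 1 ≤ 3 * b := by
      have : (n : ℝ) ≤ 2 * b := by exact_mod_cast h
      linarith
    have h1 : ((n : ℝ) + 1) ^ ((1 : ℝ) / 8) ≤ 2 * (b : ℝ) ^ ((1 : ℝ) / 8) := by
      calc ((n : ℝ) + 1) ^ ((1 : ℝ) / 8) ≤ (3 * (b : ℝ)) ^ ((1 : ℝ) / 8) :=
            Real.rpow_le_rpow (by positivity) hnb (by norm_num)
        _ = 3 ^ ((1 : ℝ) / 8) * (b : ℝ) ^ ((1 : ℝ) / 8) := Real.mul_rpow (by norm_num) hbp.le
        _ ≤ 2 * (b : ℝ) ^ ((1 : ℝ) / 8) := by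
            gcongr
            calc (3 : ℝ) ^ ((1 : ℝ) / 8) ≤ (2 ^ (8 : ℝ)) ^ ((1 : ℝ) / 8) :=
                  Real.rpow_le_rpow (by norm_num) (by norm_num) (by norm_num)
              _ = 2 := by rw [← Real.rpow_mul (by norm_num)]; norm_num
    have h2 : ∑ k ∈ range b, ph n k ≤ 6 * Real.sqrt b := by
      refine (sum_ph n b).trans ?_
      have e1 : Real.sqrt ((n : ℝ) + 1) ≤ 2 * Real.sqrt b := by
        calc Real.sqrt ((n : ℝ) + 1) ≤ Real.sqrt (4 * b) := Real.sqrt_le_sqrt (by linarith)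
          _ = 2 * Real.sqrt b := by
              rw [Real.sqrt_mul (by norm_num), show (4 : ℝ) = 2 ^ 2 by norm_num,
                Real.sqrt_sq (by norm_num)]
      linarith
    have h3 : (b : ℝ) ^ ((1 : ℝ) / 8) * Real.sqrt b = (b : ℝ) ^ ((5 : ℝ) / 8) := by
      rw [Real.sqrt_eq_rpow, ← Real.rpow_add hbp]; norm_num
    calc ((n : ℝ) + 1) ^ ((1 : ℝ) / 8) * ∑ k ∈ range b, ph n k
        ≤ (2 * (b : ℝ) ^ ((1 : ℝ) / 8)) * (6 * Real.sqrt b) :=
          mul_le_mul h1 h2 (sum_nonneg fun k _ => ph_nonneg n k) (by positivity)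
      _ = 12 * ((b : ℝ) ^ ((1 : ℝ) / 8) * Real.sqrt b) := by ring
      _ = _ := by rw [h3]
  · push Not at h
    have hnb : 2 * (b : ℝ) ≤ n := by exact_mod_cast h.le
    have h1 : ∀ k ∈ range b, ph n k ≤ 2 * ((n : ℝ) + 1) ^ (-((1 : ℝ) / 2)) := by
      intro k hk
      rw [mem_range] at hk
      have hkb : (k : ℝ) ≤ b := by exact_mod_cast hk.le
      unfold ph
      rw [abs_of_nonneg (by linarith), Real.rpow_neg (by positivity), ← Real.sqrt_eq_rpow]
      have e1 : Real.sqrt ((n : ℝ) + 1) ≤ 2 * Real.sqrt (1 + (n - k)) := by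
        calc Real.sqrt ((n : ℝ) + 1) ≤ Real.sqrt (4 * (1 + (n - k))) :=
              Real.sqrt_le_sqrt (by linarith)
          _ = 2 * Real.sqrt (1 + (n - k)) := by
              rw [Real.sqrt_mul (by norm_num), show (4 : ℝ) = 2 ^ 2 by norm_num,
                Real.sqrt_sq (by norm_num)]
      have e2 : 0 < Real.sqrt ((n : ℝ) + 1) := Real.sqrt_pos.mpr (by positivity)
      have e3 : 0 < Real.sqrt (1 + ((n : ℝ) - k)) := Real.sqrt_pos.mpr (by linarith)
      rw [← div_eq_mul_inv, div_le_div_iff₀ e3 e2]; linarith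
    have h2 : ∑ k ∈ range b, ph n k ≤ b * (2 * ((n : ℝ) + 1) ^ (-((1 : ℝ) / 2))) := by
      have := sum_le_sum h1
      rwa [sum_const, card_range, nsmul_eq_mul] at this
    have hn1 : (0 : ℝ) < (n : ℝ) + 1 := by positivity
    have h3 : ((n : ℝ) + 1) ^ ((1 : ℝ) / 8) * ((n : ℝ) + 1) ^ (-((1 : ℝ) / 2)) =
        ((n : ℝ) + 1) ^ (-((3 : ℝ) / 8)) := by
      rw [← Real.rpow_add hn1]; norm_num
    have h4 : ((n : ℝ) + 1) ^ (-((3 : ℝ) / 8)) ≤ (b : ℝ) ^ (-((3 : ℝ) / 8)) :=
      Real.rpow_le_rpow_of_nonpos hbp (by linarith) (by norm_num)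
    have h5 : (b : ℝ) * (b : ℝ) ^ (-((3 : ℝ) / 8)) = (b : ℝ) ^ ((5 : ℝ) / 8) := by
      nth_rewrite 1 [← Real.rpow_one (b : ℝ)]
      rw [← Real.rpow_add hbp]; norm_num
    calc ((n : ℝ) + 1) ^ ((1 : ℝ) / 8) * ∑ k ∈ range b, ph n k
        ≤ ((n : ℝ) + 1) ^ ((1 : ℝ) / 8) * (b * (2 * ((n : ℝ) + 1) ^ (-((1 : ℝ) / 2)))) :=
          mul_le_mul_of_nonneg_left h2 (by positivity)
      _ = 2 * b * (((n : ℝ) + 1) ^ ((1 : ℝ) / 8) * ((n : ℝ) + 1) ^ (-((1 : ℝ) / 2))) := by ring
      _ ≤ 2 * b * (b : ℝ) ^ (-((3 : ℝ) / 8)) := by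
          rw [h3]; exact mul_le_mul_of_nonneg_left h4 (by positivity)
      _ = 2 * (b : ℝ) ^ ((5 : ℝ) / 8) := by rw [mul_assoc, h5]
      _ ≤ 12 * (b : ℝ) ^ ((5 : ℝ) / 8) := by
          have : 0 ≤ (b : ℝ) ^ ((5 : ℝ) / 8) := by positivity
          linarith

/-! ### the inequality -/

lemma al_h32 (m : ℕ) : al m * h32 m ≤ 2 / Real.sqrt ((m : ℝ) + 1) := by
  unfold al h32
  set x := Real.sqrt ((m : ℝ) + 1) with hx
  have hx2 : x ^ 2 = (m : ℝ) + 1 := Real.sq_sqrt (by positivity)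
  have hx0 : 0 < x := Real.sqrt_pos.mpr (by positivity)
  have h1 : (0 : ℝ) < (m : ℝ) + 1 := by positivity
  have h2 : (0 : ℝ) < (m : ℝ) + 2 := by positivity
  have h3 : 2 / (((m : ℝ) + 1) * ((m : ℝ) + 2)) * (((m : ℝ) + 1) * x) = 2 * x / ((m : ℝ) + 2) := by
    field_simp
  rw [h3, div_le_div_iff₀ h2 hx0]
  nlinarith

/-- for one starting point: the weighted energy seen by the flow -/
lemma one_point (hd : 3 ≤ d) {g : V d → ℝ} {M : ℕ} (hg : ∀ x, M < nm x → g x = 0) (z : V d)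
    (M' : ℕ) :
    ∑ m ∈ range M', ∑ c ∈ L m, ∑ t : Fin 3,
      th m c t * h32 m * (g (pt hd z c) - g (pt hd z c + stp (dr hd t))) ^ 2 ≤
    ∑ y ∈ box d (M + 1), 2 * ph (nm y) (nm z) * ∑ i : Fin d, (g (y + stp i) - g y) ^ 2 := by
  set G : V d → ℝ := fun y => 2 * ph (nm y) (nm z) * ∑ i : Fin d, (g (y + stp i) - g y) ^ 2 with hG
  have hG0 : ∀ y, 0 ≤ G y := fun y => by
    have := ph_nonneg (nm y) (nm z)
    have h2 : 0 ≤ ∑ i : Fin d, (g (y + stp i) - g y) ^ 2 := sum_nonneg fun i _ => sq_nonneg _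
    show 0 ≤ 2 * ph (nm y) (nm z) * _
    positivity
  -- termwise
  have h1 : ∀ m ∈ range M', ∀ c ∈ L m, ∑ t : Fin 3,
      th m c t * h32 m * (g (pt hd z c) - g (pt hd z c + stp (dr hd t))) ^ 2 ≤ G (pt hd z c) := by
    intro m _ c hc
    have hc' := mem_L.mp hc
    have e1 : al m * h32 m ≤ 2 * ph (nm (pt hd z c)) (nm z) := by
      refine (al_h32 m).trans ?_
      unfold ph
      rw [← mul_one_div]
      refine mul_le_mul_of_nonneg_left ?_ (by norm_num)
      have h0 := nm_pt_sub hd z c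
      rw [hc'] at h0
      have h2 := nm_le_add (pt hd z c) z
      have h3 := nm_le_add z (pt hd z c)
      rw [nm_sub_comm] at h3
      have h4 : |(nm (pt hd z c) : ℝ) - (nm z : ℝ)| ≤ m := by
        rw [abs_le]
        have h5 : (nm (pt hd z c) : ℝ) ≤ m + nm z := by exact_mod_cast (by omega)
        have h6 : (nm z : ℝ) ≤ m + nm (pt hd z c) := by exact_mod_cast (by omega)
        constructor <;> linarith
      refine one_div_le_one_div_of_le (Real.sqrt_pos.mpr (by positivity)) (Real.sqrt_le_sqrt ?_)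
      linarith
    have e2 : ∑ t : Fin 3, (g (pt hd z c) - g (pt hd z c + stp (dr hd t))) ^ 2 ≤
        ∑ i : Fin d, (g (pt hd z c + stp i) - g (pt hd z c)) ^ 2 := by
      have : ∑ t : Fin 3, (g (pt hd z c) - g (pt hd z c + stp (dr hd t))) ^ 2 =
          ∑ i ∈ univ.image (dr hd), (g (pt hd z c + stp i) - g (pt hd z c)) ^ 2 := by
        rw [sum_image (fun a _ b _ h => dr_inj hd h)]
        exact sum_congr rfl fun t _ => by ring
      rw [this]
      exact sum_le_sum_of_subset_of_nonneg (subset_univ _) fun i _ _ => sq_nonneg _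
    calc ∑ t : Fin 3, th m c t * h32 m * (g (pt hd z c) - g (pt hd z c + stp (dr hd t))) ^ 2
        ≤ ∑ t : Fin 3, (2 * ph (nm (pt hd z c)) (nm z)) *
            (g (pt hd z c) - g (pt hd z c + stp (dr hd t))) ^ 2 := by
          refine sum_le_sum fun t _ => mul_le_mul_of_nonneg_right ?_ (sq_nonneg _)
          refine le_trans (mul_le_mul_of_nonneg_right (th_le hc t) (h32_pos m).le) e1
      _ = (2 * ph (nm (pt hd z c)) (nm z)) *
            ∑ t : Fin 3, (g (pt hd z c) - g (pt hd z c + stp (dr hd t))) ^ 2 := by rw [mul_sum]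
      _ ≤ G (pt hd z c) := by
          refine mul_le_mul_of_nonneg_left e2 ?_
          have := ph_nonneg (nm (pt hd z c)) (nm z)
          positivity
  have h2 : ∑ m ∈ range M', ∑ c ∈ L m, ∑ t : Fin 3,
      th m c t * h32 m * (g (pt hd z c) - g (pt hd z c + stp (dr hd t))) ^ 2 ≤
      ∑ m ∈ range M', ∑ c ∈ L m, G (pt hd z c) :=
    sum_le_sum fun m hm => sum_le_sum fun c hc => h1 m hm c hc
  refine h2.trans ?_
  have h3 : ∑ m ∈ range M', ∑ c ∈ L m, G (pt hd z c) =
      ∑ c ∈ (range M').biUnion L, G (pt hd z c) := by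
    rw [sum_biUnion]
    intro m _ m' _ hmm
    rw [Function.onFun, disjoint_left]
    intro c hc hc'
    rw [mem_L] at hc hc'
    exact hmm (hc.symm.trans hc')
  have h4 : ∑ c ∈ (range M').biUnion L, G (pt hd z c) =
      ∑ y ∈ ((range M').biUnion L).image (pt hd z), G y := by
    rw [sum_image fun a _ b _ h => pt_inj hd z h]
  rw [h3, h4]
  have h5 : ∑ y ∈ ((range M').biUnion L).image (pt hd z), G y =
      ∑ y ∈ (((range M').biUnion L).image (pt hd z)).filter fun y => nm y ≤ M + 1, G y := by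
    symm
    refine sum_filter_of_ne fun y _ hy => ?_
    by_contra hlt
    push Not at hlt
    apply hy
    have e1 : g y = 0 := hg y (by omega)
    have e2 : ∀ i : Fin d, g (y + stp i) = 0 := fun i => hg _ (by
      have := le_nm_add_stp y i; omega)
    show 2 * ph (nm y) (nm z) * ∑ i : Fin d, (g (y + stp i) - g y) ^ 2 = 0
    simp [e1, e2]
  rw [h5]
  refine sum_le_sum_of_subset_of_nonneg (fun y hy => ?_) fun y _ _ => hG0 y
  rw [mem_box]
  exact (mem_filter.mp hy).2

theorem flow : S_FLOW := by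
  intro d hd A hA
  refine ⟨Real.sqrt (6 * (24 * A)), Real.sqrt_pos.mpr (by positivity), ?_⟩
  intro W hW g M hg a b z hz
  rcases Nat.eq_zero_or_pos b with rfl | hb
  · simp
  have hb0 : (0 : ℝ) < b := by exact_mod_cast hb
  set M' : ℕ := 3 * (M + b + 1) with hM'
  -- index set
  set J : Finset (ℕ × ℕ × (Fin 3 → ℕ) × Fin 3) :=
    (Ico a b).biUnion fun k => (range M').biUnion fun m => (L m).biUnion fun c =>
      (univ : Finset (Fin 3)).image fun t => (k, m, c, t) with hJ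
  have hsumJ : ∀ F : ℕ × ℕ × (Fin 3 → ℕ) × Fin 3 → ℝ, ∑ q ∈ J, F q =
      ∑ k ∈ Ico a b, ∑ m ∈ range M', ∑ c ∈ L m, ∑ t : Fin 3, F (k, m, c, t) := by
    intro F
    rw [hJ, sum_biUnion]
    · refine sum_congr rfl fun k _ => ?_
      rw [sum_biUnion]
      · refine sum_congr rfl fun m _ => ?_
        rw [sum_biUnion]
        · refine sum_congr rfl fun c _ => ?_
          rw [sum_image]
          intro t _ t' _ h
          simpa using h
        · intro c _ c' _ hcc
          rw [Function.onFun, disjoint_left]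
          intro q h1 h2
          rw [mem_image] at h1 h2
          obtain ⟨t, -, rfl⟩ := h1
          obtain ⟨t', -, h⟩ := h2
          simp only [Prod.mk.injEq, true_and] at h
          exact hcc h.1.symm
      · intro m _ m' _ hmm
        rw [Function.onFun, disjoint_left]
        intro q h1 h2
        simp only [mem_biUnion, mem_image, mem_univ, true_and] at h1 h2
        obtain ⟨c, -, t, rfl⟩ := h1
        obtain ⟨c', -, t', h⟩ := h2
        simp only [Prod.mk.injEq, true_and] at h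
        exact hmm h.1.symm
    · intro k _ k' _ hkk
      rw [Function.onFun, disjoint_left]
      intro q h1 h2
      simp only [mem_biUnion, mem_image, mem_univ, true_and] at h1 h2
      obtain ⟨m, -, c, -, t, rfl⟩ := h1
      obtain ⟨m', -, c', -, t', h⟩ := h2
      simp only [Prod.mk.injEq] at h
      exact hkk h.1.symm
  -- first step
  have hstep1 : ∑ k ∈ Ico a b, g (z k) ≤ ∑ q ∈ J, Real.sqrt (th q.2.1 q.2.2.1 q.2.2.2 / h32 q.2.1) *
      Real.sqrt (th q.2.1 q.2.2.1 q.2.2.2 * h32 q.2.1 *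
        (g (pt hd (z q.1) q.2.2.1) - g (pt hd (z q.1) q.2.2.1 + stp (dr hd q.2.2.2))) ^ 2) := by
    rw [hsumJ]
    refine sum_le_sum fun k hk => ?_
    rw [mem_Ico] at hk
    rw [tele hd hg (z := z k) (M' := M') (by rw [hz k hk.1 hk.2]; omega)]
    refine sum_le_sum fun m _ => sum_le_sum fun c _ => sum_le_sum fun t _ => ?_
    have h0 := th_nonneg m c t
    have h1 := h32_pos m
    set D := g (pt hd (z k) c) - g (pt hd (z k) c + stp (dr hd t)) with hD
    show th m c t * D ≤ Real.sqrt (th m c t / h32 m) * Real.sqrt (th m c t * h32 m * D ^ 2)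
    rw [← Real.sqrt_mul (by positivity)]
    have h2 : th m c t / h32 m * (th m c t * h32 m * D ^ 2) = (th m c t * D) ^ 2 := by
      field_simp
    rw [h2, Real.sqrt_sq_eq_abs]
    exact le_abs_self _
  have hstep2 := Real.sum_mul_le_sqrt_mul_sqrt J
    (fun q => Real.sqrt (th q.2.1 q.2.2.1 q.2.2.2 / h32 q.2.1))
    (fun q => Real.sqrt (th q.2.1 q.2.2.1 q.2.2.2 * h32 q.2.1 *
        (g (pt hd (z q.1) q.2.2.1) - g (pt hd (z q.1) q.2.2.1 + stp (dr hd q.2.2.2))) ^ 2))
  have hsq1 : ∀ q ∈ J, Real.sqrt (th q.2.1 q.2.2.1 q.2.2.2 / h32 q.2.1) ^ 2 =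
      th q.2.1 q.2.2.1 q.2.2.2 / h32 q.2.1 := fun q _ =>
    Real.sq_sqrt (div_nonneg (th_nonneg _ _ _) (h32_pos _).le)
  have hsq2 : ∀ q ∈ J, Real.sqrt (th q.2.1 q.2.2.1 q.2.2.2 * h32 q.2.1 *
        (g (pt hd (z q.1) q.2.2.1) - g (pt hd (z q.1) q.2.2.1 + stp (dr hd q.2.2.2))) ^ 2) ^ 2 =
      th q.2.1 q.2.2.1 q.2.2.2 * h32 q.2.1 *
        (g (pt hd (z q.1) q.2.2.1) - g (pt hd (z q.1) q.2.2.1 + stp (dr hd q.2.2.2))) ^ 2 :=
    fun q _ => Real.sq_sqrt
      (mul_nonneg (mul_nonneg (th_nonneg _ _ _) (h32_pos _).le) (sq_nonneg _))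
  rw [sum_congr rfl hsq1, sum_congr rfl hsq2] at hstep2
  rw [hsumJ (fun q => th q.2.1 q.2.2.1 q.2.2.2 / h32 q.2.1),
    hsumJ (fun q => th q.2.1 q.2.2.1 q.2.2.2 * h32 q.2.1 *
        (g (pt hd (z q.1) q.2.2.1) - g (pt hd (z q.1) q.2.2.1 + stp (dr hd q.2.2.2))) ^ 2)]
    at hstep2
  -- first factor
  have hfac1 : ∑ k ∈ Ico a b, ∑ m ∈ range M', ∑ c ∈ L m, ∑ t : Fin 3, th m c t / h32 m ≤
      6 * b := by
    have h1 : ∀ m, ∑ c ∈ L m, ∑ t : Fin 3, th m c t / h32 m ≤ 2 * (1 / h32 m) := by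
      intro m
      have e1 : ∑ c ∈ L m, ∑ t : Fin 3, th m c t / h32 m = ∑ c ∈ L m, al m / h32 m :=
        sum_congr rfl fun c hc => by rw [← sum_div, sum_th hc]
      rw [e1, sum_const, nsmul_eq_mul]
      have e2 : ((L m).card : ℝ) ≤ ((m : ℝ) + 1) * ((m : ℝ) + 1) := by exact_mod_cast card_L m
      have e3 : ((L m).card : ℝ) * al m ≤ 2 := by
        calc ((L m).card : ℝ) * al m ≤ (((m : ℝ) + 1) * ((m : ℝ) + 1)) * al m :=
              mul_le_mul_of_nonneg_right e2 (al_pos m).le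
          _ ≤ 2 := by
              unfold al
              rw [mul_div_assoc', div_le_iff₀ (by positivity)]
              nlinarith [Nat.cast_nonneg (α := ℝ) m]
      calc ((L m).card : ℝ) * (al m / h32 m) = ((L m).card * al m) * (1 / h32 m) := by ring
        _ ≤ 2 * (1 / h32 m) := mul_le_mul_of_nonneg_right e3
            (by have := h32_pos m; positivity)
    calc ∑ k ∈ Ico a b, ∑ m ∈ range M', ∑ c ∈ L m, ∑ t : Fin 3, th m c t / h32 m
        ≤ ∑ k ∈ Ico a b, (6 : ℝ) := by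
          refine sum_le_sum fun k _ => ?_
          refine (sum_le_sum fun m _ => h1 m).trans ?_
          rw [← mul_sum]
          have := sum_h32 M'
          linarith
      _ = ((Ico a b).card : ℝ) * 6 := by rw [sum_const, nsmul_eq_mul]
      _ ≤ 6 * b := by
          have : ((Ico a b).card : ℝ) ≤ b := by
            rw [Nat.card_Ico]; exact_mod_cast Nat.sub_le b a
          linarith
  -- second factor
  set EW := ∑ v ∈ box d (M + 1), ∑ i : Fin d, (g (v + stp i) - g v) ^ 2 / W v with hEW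
  have hfac2 : ∑ k ∈ Ico a b, ∑ m ∈ range M', ∑ c ∈ L m, ∑ t : Fin 3, th m c t * h32 m *
      (g (pt hd (z k) c) - g (pt hd (z k) c + stp (dr hd t))) ^ 2 ≤
      24 * A * (b : ℝ) ^ ((5 : ℝ) / 8) * EW := by
    calc ∑ k ∈ Ico a b, ∑ m ∈ range M', ∑ c ∈ L m, ∑ t : Fin 3, th m c t * h32 m *
          (g (pt hd (z k) c) - g (pt hd (z k) c + stp (dr hd t))) ^ 2
        ≤ ∑ k ∈ Ico a b, ∑ y ∈ box d (M + 1), 2 * ph (nm y) k *
            ∑ i : Fin d, (g (y + stp i) - g y) ^ 2 := by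
          refine sum_le_sum fun k hk => ?_
          rw [mem_Ico] at hk
          have := one_point hd hg (z k) M'
          rwa [hz k hk.1 hk.2] at this
      _ = ∑ y ∈ box d (M + 1), (2 * ∑ k ∈ Ico a b, ph (nm y) k) *
            ∑ i : Fin d, (g (y + stp i) - g y) ^ 2 := by
          rw [sum_comm]
          refine sum_congr rfl fun y _ => ?_
          rw [← sum_mul, ← mul_sum]
      _ ≤ ∑ y ∈ box d (M + 1), (24 * A * (b : ℝ) ^ ((5 : ℝ) / 8)) *
            ∑ i : Fin d, (g (y + stp i) - g y) ^ 2 / W y := by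
          refine sum_le_sum fun y _ => ?_
          obtain ⟨w1, w2⟩ := hW y
          have e1 : ∑ k ∈ Ico a b, ph (nm y) k ≤ ∑ k ∈ range b, ph (nm y) k :=
            sum_le_sum_of_subset_of_nonneg
              (fun k hk => mem_range.mpr (mem_Ico.mp hk).2) fun k _ _ => ph_nonneg _ _
          have e2 := bracket (nm y) b hb
          have e3 : W y * ∑ k ∈ Ico a b, ph (nm y) k ≤ 12 * A * (b : ℝ) ^ ((5 : ℝ) / 8) := by
            calc W y * ∑ k ∈ Ico a b, ph (nm y) k
                ≤ (A * ((nm y : ℝ) + 1) ^ ((1 : ℝ) / 8)) * ∑ k ∈ range b, ph (nm y) k :=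
                  mul_le_mul w2 e1 (sum_nonneg fun k _ => ph_nonneg _ _) (by positivity)
              _ = A * (((nm y : ℝ) + 1) ^ ((1 : ℝ) / 8) * ∑ k ∈ range b, ph (nm y) k) := by ring
              _ ≤ A * (12 * (b : ℝ) ^ ((5 : ℝ) / 8)) := mul_le_mul_of_nonneg_left e2 hA.le
              _ = _ := by ring
          rw [← sum_div]
          set S := ∑ i : Fin d, (g (y + stp i) - g y) ^ 2 with hS
          have hS0 : 0 ≤ S := sum_nonneg fun i _ => sq_nonneg _
          have e4 : (2 * ∑ k ∈ Ico a b, ph (nm y) k) * S =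
              2 * (W y * ∑ k ∈ Ico a b, ph (nm y) k) * (S / W y) := by
            field_simp
          rw [e4]
          refine mul_le_mul_of_nonneg_right ?_ (by positivity)
          linarith
      _ = 24 * A * (b : ℝ) ^ ((5 : ℝ) / 8) * EW := by rw [← mul_sum]
  have hEW0 : 0 ≤ EW := sum_nonneg fun v _ => sum_nonneg fun i _ =>
    div_nonneg (sq_nonneg _) (hW v).1.le
  refine hstep1.trans (hstep2.trans ?_)
  calc Real.sqrt (∑ k ∈ Ico a b, ∑ m ∈ range M', ∑ c ∈ L m, ∑ t : Fin 3, th m c t / h32 m) *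
        Real.sqrt (∑ k ∈ Ico a b, ∑ m ∈ range M', ∑ c ∈ L m, ∑ t : Fin 3, th m c t * h32 m *
          (g (pt hd (z k) c) - g (pt hd (z k) c + stp (dr hd t))) ^ 2)
      ≤ Real.sqrt (6 * b) * Real.sqrt (24 * A * (b : ℝ) ^ ((5 : ℝ) / 8) * EW) :=
        mul_le_mul (Real.sqrt_le_sqrt hfac1) (Real.sqrt_le_sqrt hfac2) (Real.sqrt_nonneg _)
          (Real.sqrt_nonneg _)
    _ = Real.sqrt (6 * (24 * A)) * (b : ℝ) ^ ((13 : ℝ) / 16) * Real.sqrt EW := by
        have h1 : (b : ℝ) ^ ((13 : ℝ) / 16) = Real.sqrt ((b : ℝ) * (b : ℝ) ^ ((5 : ℝ) / 8)) := by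
          rw [Real.sqrt_eq_rpow]
          nth_rewrite 2 [← Real.rpow_one (b : ℝ)]
          rw [← Real.rpow_add hb0, ← Real.rpow_mul hb0.le]
          norm_num
        rw [h1, ← Real.sqrt_mul (by positivity), ← Real.sqrt_mul (by positivity),
          ← Real.sqrt_mul (by positivity)]
        congr 1
        ring

end Pool.Agent.W844.VG.Flow
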