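import Pool.Agent.W844.VG.Basic

/-!
# MP_b4265e_pr: the zero gradient pattern
-/

set_option autoImplicit false

open Finset
open scoped Classical

namespace Pool.Agent.W844.VG

variable {d : ℕ}

lemma notAL_i {i : Fin d} {v x : V d} (h : x i ≠ v i) : (x, i) ∉ AL i v := by
  rintro (h1 | ⟨j, hj, h1 | h1 | h1 | h1 | h1 | h1⟩) <;>
    simp only [Prod.mk.injEq] at h1 <;> obtain ⟨h2, h3⟩ := h1
  · exact h (by rw [h2])
  · exact hj h3.symm
  · exact hj h3.symm
  · exact hj h3.symm
  · exact hj h3.symm
  · apply h; rw [h2]; simp [stp_ne hj.symm]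
  · apply h; rw [h2]; simp [stp_ne hj.symm]

lemma notAL_l {i k l : Fin d} {v x : V d} (hk : k ≠ i) (hl : l ≠ i) (hlk : l ≠ k)
    (h : x l ≠ v l) : (x, k) ∉ AL i v := by
  rintro (h1 | ⟨j, hj, h1 | h1 | h1 | h1 | h1 | h1⟩) <;>
    simp only [Prod.mk.injEq] at h1 <;> obtain ⟨h2, h3⟩ := h1
  · exact h (by rw [h2])
  · exact h (by rw [h2])
  · subst h3; apply h; rw [h2]; simp [stp_ne hlk]
  · apply h; rw [h2]; simp [stp_ne hl]
  · subst h3; apply h; rw [h2]; simp [stp_ne hl, stp_ne hlk]
  · exact hk h3
  · exact hk h3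

lemma notAL_k {i k : Fin d} {v x : V d} (hk : k ≠ i) (h0 : x k ≠ v k) (h1 : x k ≠ v k - 1) :
    (x, k) ∉ AL i v := by
  rintro (h | ⟨j, hj, h | h | h | h | h | h⟩) <;>
    simp only [Prod.mk.injEq] at h <;> obtain ⟨h2, h3⟩ := h
  · exact h0 (by rw [h2])
  · exact h0 (by rw [h2])
  · subst h3; apply h1; rw [h2]; simp [stp_same]
  · apply h0; rw [h2]; simp [stp_ne hk]
  · subst h3; apply h1; rw [h2]; simp [stp_ne hk, stp_same]
  · exact hk h3
  · exact hk h3

lemma Pat.not_of_base {O : Set (E d)} {i : Fin d} {v : V d} (h : Pat O i v) {x : V d}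
    {k : Fin d} (hx : nm (x - v) ≤ 4) (hT : x ∈ TT i v) (hA : (x, k) ∉ AL i v) : (x, k) ∉ O := by
  rw [h (x, k) hx]
  rintro (h1 | h1)
  · exact h1.1 hT
  · exact hA h1

lemma Pat.not_of_tip {O : Set (E d)} {i : Fin d} {v : V d} (h : Pat O i v) {x : V d}
    {k : Fin d} (hx : nm (x - v) ≤ 4) (hT : x + stp k ∈ TT i v) (hA : (x, k) ∉ AL i v) :
    (x, k) ∉ O := by
  rw [h (x, k) hx]
  rintro (h1 | h1)
  · exact h1.2 hT
  · exact hA h1

lemma Pat.mem {O : Set (E d)} {i : Fin d} {v : V d} (h : Pat O i v) {x : V d}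
    {k : Fin d} (hx : nm (x - v) ≤ 4) (hA : (x, k) ∈ AL i v) : (x, k) ∈ O :=
  (h (x, k) hx).mpr (Or.inr hA)

theorem patz : S_PATZ := by
  intro d _ O i v u hP hH
  have hTv : v ∈ TT i v := Or.inl rfl
  have hTy : v + stp i ∈ TT i v := Or.inr (Or.inl rfl)
  have hTp : ∀ j, j ≠ i → v + stp i + stp j ∈ TT i v := fun j hj =>
    Or.inr (Or.inr ⟨j, hj, Or.inl rfl⟩)
  have hTm : ∀ j, j ≠ i → v + stp i - stp j ∈ TT i v := fun j hj =>
    Or.inr (Or.inr ⟨j, hj, Or.inr rfl⟩)
  -- edges at v
  have v1 : ∀ k, (v, k) ∈ O := fun k => hP.mem (by simp) (by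
    by_cases hk : k = i
    · subst hk; exact Or.inl rfl
    · exact Or.inr ⟨k, hk, Or.inl rfl⟩)
  have v2 : ∀ k, k ≠ i → (v - stp k, k) ∈ O := fun k hk => hP.mem
    (by rw [show v - stp k - v = -stp k by abel, nm_neg]; simp)
    (Or.inr ⟨k, hk, Or.inr (Or.inl rfl)⟩)
  have v3 : (v - stp i, i) ∉ O := hP.not_of_tip
    (by rw [show v - stp i - v = -stp i by abel, nm_neg]; simp) (by simpa using hTv)
    (notAL_i (by simp [stp_same]))
  -- edges at y
  have y1 : (v + stp i, i) ∉ O := hP.not_of_base (by simp) hTy (notAL_i (by simp [stp_same]))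
  have y2 : ∀ k, k ≠ i → (v + stp i, k) ∈ O := fun k hk => hP.mem (by simp)
    (Or.inr ⟨k, hk, Or.inr (Or.inr (Or.inl rfl))⟩)
  have nb : ∀ a b : Fin d, nm (stp a - stp b : V d) ≤ 4 := fun a b => by
    have := nm_sub_le (stp a : V d) (stp b); simp at this; omega
  have nb' : ∀ a b : Fin d, nm (stp a + stp b : V d) ≤ 4 := fun a b => by
    have := nm_add_le (stp a : V d) (stp b); simp at this; omega
  have nc : ∀ a b c : Fin d, nm (stp a + stp b - stp c : V d) ≤ 4 := fun a b c => by
    have := nm_sub_le (stp a + stp b : V d) (stp c)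
    have h2 := nm_add_le (stp a : V d) (stp b); simp at this h2; omega
  have nc' : ∀ a b c : Fin d, nm (stp a - stp b - stp c : V d) ≤ 4 := fun a b c => by
    have := nm_sub_le (stp a - stp b : V d) (stp c)
    have h2 := nm_sub_le (stp a : V d) (stp b); simp at this h2; omega
  have y3 : ∀ k, k ≠ i → (v + stp i - stp k, k) ∈ O := fun k hk => hP.mem
    (by rw [show v + stp i - stp k - v = stp i - stp k by abel]; exact nb i k)
    (Or.inr ⟨k, hk, Or.inr (Or.inr (Or.inr (Or.inl rfl)))⟩)
  -- equation at v
  have ev := hH v hTv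
  have ey := hH (v + stp i) hTy
  unfold HarmAt at ev ey
  rw [← Finset.add_sum_erase univ _ (mem_univ i)] at ev ey
  rw [if_pos (v1 i), if_neg v3] at ev
  rw [if_neg y1, add_sub_cancel_right, if_pos (v1 i)] at ey
  have ev' : ∑ k ∈ univ.erase i, ((if (v, k) ∈ O then u (v + stp k) - u v else 0) +
      (if (v - stp k, k) ∈ O then u (v - stp k) - u v else 0)) =
      ∑ k ∈ univ.erase i, ((u (v + stp k) - u v) + (u (v - stp k) - u v)) :=
    sum_congr rfl fun k hk => by
      rw [if_pos (v1 k), if_pos (v2 k (ne_of_mem_erase hk))]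
  have hc : ∀ k, k ≠ i → u (v + stp i + stp k) = (u (v + stp k) + u (v + stp i)) / 2 := by
    intro j hj
    have e := hH _ (hTp j hj)
    unfold HarmAt at e
    rw [← Finset.add_sum_erase univ _ (mem_univ i)] at e
    rw [← Finset.add_sum_erase (univ.erase i) _ (mem_erase.mpr ⟨hj, mem_univ j⟩)] at e
    have a1 : (v + stp i + stp j, i) ∉ O := hP.not_of_base
      (by rw [show v + stp i + stp j - v = stp i + stp j by abel]; exact nb' i j) (hTp j hj)
      (notAL_i (by simp [stp_same, stp_ne hj.symm]))
    have a2 : (v + stp i + stp j - stp i, i) ∈ O := by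
      rw [show v + stp i + stp j - stp i = v + stp j by abel]
      exact hP.mem (by simp) (Or.inr ⟨j, hj, Or.inr (Or.inr (Or.inr (Or.inr (Or.inl rfl))))⟩)
    have a3 : (v + stp i + stp j, j) ∉ O := hP.not_of_base
      (by rw [show v + stp i + stp j - v = stp i + stp j by abel]; exact nb' i j) (hTp j hj)
      (notAL_k hj (by simp [stp_same, stp_ne hj]) (by simp [stp_same, stp_ne hj]; omega))
    have a4 : (v + stp i + stp j - stp j, j) ∈ O := by
      rw [add_sub_cancel_right]; exact y2 j hj
    have a5 : ∑ k ∈ (univ.erase i).erase j,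
        ((if (v + stp i + stp j, k) ∈ O then u (v + stp i + stp j + stp k) -
          u (v + stp i + stp j) else 0) +
        (if (v + stp i + stp j - stp k, k) ∈ O then u (v + stp i + stp j - stp k) -
          u (v + stp i + stp j) else 0)) = 0 := by
      refine sum_eq_zero fun k hk => ?_
      have hkj : k ≠ j := ne_of_mem_erase hk
      have hki : k ≠ i := ne_of_mem_erase (mem_of_mem_erase hk)
      have b1 : (v + stp i + stp j, k) ∉ O := hP.not_of_base
        (by rw [show v + stp i + stp j - v = stp i + stp j by abel]; exact nb' i j) (hTp j hj)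
        (notAL_l hki hj hkj.symm (by simp [stp_same, stp_ne hj]))
      have b2 : (v + stp i + stp j - stp k, k) ∉ O := hP.not_of_tip
        (by rw [show v + stp i + stp j - stp k - v = stp i + stp j - stp k by abel]
            exact nc i j k) (by rw [sub_add_cancel]; exact hTp j hj)
        (notAL_l hki hj hkj.symm (by simp [stp_same, stp_ne hj, stp_ne hkj.symm]))
      rw [if_neg b1, if_neg b2, add_zero]
    rw [a5, if_neg a1, if_pos a2, if_neg a3, if_pos a4, add_sub_cancel_right,
      show v + stp i + stp j - stp i = v + stp j by abel] at e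
    linarith
  have hc' : ∀ k, k ≠ i → u (v + stp i - stp k) = (u (v - stp k) + u (v + stp i)) / 2 := by
    intro j hj
    have e := hH _ (hTm j hj)
    unfold HarmAt at e
    rw [← Finset.add_sum_erase univ _ (mem_univ i)] at e
    rw [← Finset.add_sum_erase (univ.erase i) _ (mem_erase.mpr ⟨hj, mem_univ j⟩)] at e
    have a1 : (v + stp i - stp j, i) ∉ O := hP.not_of_base
      (by rw [show v + stp i - stp j - v = stp i - stp j by abel]; exact nb i j) (hTm j hj)
      (notAL_i (by simp [stp_same, stp_ne hj.symm]))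
    have a2 : (v + stp i - stp j - stp i, i) ∈ O := by
      rw [show v + stp i - stp j - stp i = v - stp j by abel]
      exact hP.mem (by rw [show v - stp j - v = -stp j by abel, nm_neg]; simp)
        (Or.inr ⟨j, hj, Or.inr (Or.inr (Or.inr (Or.inr (Or.inr rfl))))⟩)
    have a3 : (v + stp i - stp j, j) ∈ O := y3 j hj
    have a4 : (v + stp i - stp j - stp j, j) ∉ O := hP.not_of_tip
      (by rw [show v + stp i - stp j - stp j - v = stp i - stp j - stp j by abel]
          exact nc' i j j) (by rw [sub_add_cancel]; exact hTm j hj)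
      (notAL_k hj (by simp [stp_same, stp_ne hj]; omega) (by simp [stp_same, stp_ne hj]))
    have a5 : ∑ k ∈ (univ.erase i).erase j,
        ((if (v + stp i - stp j, k) ∈ O then u (v + stp i - stp j + stp k) -
          u (v + stp i - stp j) else 0) +
        (if (v + stp i - stp j - stp k, k) ∈ O then u (v + stp i - stp j - stp k) -
          u (v + stp i - stp j) else 0)) = 0 := by
      refine sum_eq_zero fun k hk => ?_
      have hkj : k ≠ j := ne_of_mem_erase hk
      have hki : k ≠ i := ne_of_mem_erase (mem_of_mem_erase hk)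
      have b1 : (v + stp i - stp j, k) ∉ O := hP.not_of_base
        (by rw [show v + stp i - stp j - v = stp i - stp j by abel]; exact nb i j) (hTm j hj)
        (notAL_l hki hj hkj.symm (by simp [stp_same, stp_ne hj]))
      have b2 : (v + stp i - stp j - stp k, k) ∉ O := hP.not_of_tip
        (by rw [show v + stp i - stp j - stp k - v = stp i - stp j - stp k by abel]
            exact nc' i j k) (by rw [sub_add_cancel]; exact hTm j hj)
        (notAL_l hki hj hkj.symm (by simp [stp_same, stp_ne hj, stp_ne hkj.symm]))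
      rw [if_neg b1, if_neg b2, add_zero]
    rw [a5, if_neg a1, if_pos a2, if_pos a3, if_neg a4, sub_add_cancel,
      show v + stp i - stp j - stp i = v - stp j by abel] at e
    linarith
  have ey' : ∑ k ∈ univ.erase i,
      ((if (v + stp i, k) ∈ O then u (v + stp i + stp k) - u (v + stp i) else 0) +
      (if (v + stp i - stp k, k) ∈ O then u (v + stp i - stp k) - u (v + stp i) else 0)) =
      ∑ k ∈ univ.erase i, (((u (v + stp k) - u v) + (u (v - stp k) - u v)) / 2 +
        (u v - u (v + stp i))) :=
    sum_congr rfl fun k hk => by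
      have hk' := ne_of_mem_erase hk
      rw [if_pos (y2 k hk'), if_pos (y3 k hk'), hc k hk', hc' k hk']; ring
  rw [ev'] at ev
  rw [ey', sum_add_distrib, ← sum_div, sum_const, nsmul_eq_mul] at ey
  set S := ∑ k ∈ univ.erase i, ((u (v + stp k) - u v) + (u (v - stp k) - u v)) with hS
  set n : ℝ := ((univ.erase i).card : ℝ) with hn
  have hn0 : 0 ≤ n := Nat.cast_nonneg _
  have h1 : (u v - u (v + stp i)) * (3 / 2 + n) = 0 := by linear_combination ey - ev / 2
  rcases mul_eq_zero.mp h1 with h2 | h2
  · linarith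
  · linarith

lemma TT_near {i : Fin d} {v x : V d} (h : x ∈ TT i v) : nm (x - (v + stp i)) ≤ 1 := by
  rcases h with rfl | rfl | ⟨j, -, rfl | rfl⟩
  · rw [show x - (x + stp i) = -stp i by abel, nm_neg]; simp
  · simp
  · simp
  · rw [show v + stp i - stp j - (v + stp i) = -stp j by abel, nm_neg]; simp

theorem patc (hann : S_ANN) : S_PATC := by
  intro d hd O i v hP
  set c : V d := v + stp i with hc
  set comp : V d → (gr O).ConnectedComponent := fun x => (gr O).connectedComponentMk x with hcomp
  have hedge : ∀ x k, (x, k) ∈ O → comp (x + stp k) = comp x := fun x k h =>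
    SimpleGraph.ConnectedComponent.eq.mpr (gr_adj_step h).symm.reachable
  have hcv : nm (c - v) = 1 := by rw [hc]; simp
  -- outside of the small ball
  have hout : ∀ x k, 1 < nm (x - c) → 1 < nm (x + stp k - c) → nm (x - v) ≤ 4 →
      comp (x + stp k) = comp x := by
    intro x k h1 h2 h3
    refine hedge x k ((hP (x, k) h3).mpr (Or.inl ⟨fun h => ?_, fun h => ?_⟩))
    · have := TT_near h; simp only [← hc] at this; omega
    · have := TT_near h; simp only [← hc] at this; omega
  have hanc : ∀ x y, 1 < nm (x - c) → nm (x - c) ≤ 3 → 1 < nm (y - c) → nm (y - c) ≤ 3 →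
      comp x = comp y := by
    refine hann d hd _ comp c 1 3 (fun x k h1 h2 h3 _ => hout x k h1 h3 ?_)
    have := nm_tri x c v; omega
  -- reference point
  set w : V d := c + (2 : ℤ) • stp i with hw
  have hwc : nm (w - c) = 2 := by rw [hw, add_sub_cancel_left, nm_zsmul_stp]; rfl
  -- points of the small ball outside TT
  have hsmall : ∀ z, z ∉ TT i v → nm (z - c) ≤ 1 → comp z = comp w := by
    intro z hz hz1
    have hzc : z ≠ c := fun h => hz (Or.inr (Or.inl h))
    obtain ⟨k, hk⟩ : ∃ k, z k ≠ c k := by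
      by_contra hcon; push Not at hcon; exact hzc (funext hcon)
    have hzk := natAbs_le_nm (z - c) k
    rw [Pi.sub_apply] at hzk
    have hzv : nm (z - v) ≤ 2 := by have := nm_tri z c v; omega
    have hz' : 1 < nm (z - c) ∨ nm (z - c) ≤ 1 := lt_or_ge _ _
    rcases lt_or_gt_of_ne hk with hlt | hgt
    · -- z k = c k - 1
      have h2 : 1 < nm (z - stp k - c) := lt_nm_iff.mpr ⟨k, by
        simp only [Pi.sub_apply, stp_same]; omega⟩
      have h3 : nm (z - stp k - c) ≤ 3 := by
        have := nm_tri (z - stp k) z c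
        rw [show z - stp k - z = -stp k by abel, nm_neg, nm_stp] at this; omega
      have h4 : (z - stp k, k) ∈ O := by
        refine (hP (z - stp k, k) ?_).mpr (Or.inl ⟨fun h => ?_, fun h => ?_⟩)
        · show nm (z - stp k - v) ≤ 4
          have := nm_tri (z - stp k) z v
          rw [show z - stp k - z = -stp k by abel, nm_neg, nm_stp] at this; omega
        · have := TT_near h; simp only [← hc] at this; omega
        · simp only [sub_add_cancel] at h; exact hz h
      have h5 := hedge _ _ h4
      rw [sub_add_cancel] at h5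
      rw [h5]
      exact hanc _ _ h2 h3 (by omega) (by omega)
    · have h2 : 1 < nm (z + stp k - c) := lt_nm_iff.mpr ⟨k, by
        simp only [Pi.sub_apply, Pi.add_apply, stp_same]; omega⟩
      have h3 : nm (z + stp k - c) ≤ 3 := by
        have := nm_tri (z + stp k) z c
        rw [add_sub_cancel_left, nm_stp] at this; omega
      have h4 : (z, k) ∈ O := by
        refine (hP (z, k) ?_).mpr (Or.inl ⟨hz, fun h => ?_⟩)
        · show nm (z - v) ≤ 4
          omega
        · have := TT_near h; simp only [← hc] at this; omega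
      rw [← hedge _ _ h4]
      exact hanc _ _ h2 h3 (by omega) (by omega)
  -- points of TT
  obtain ⟨j, hj⟩ : ∃ j : Fin d, j ≠ i := by
    have : Nontrivial (Fin d) := Fin.nontrivial_iff_two_le.mpr hd
    exact exists_ne i
  have hvj : v + stp j ∉ TT i v := by
    rintro (h | h | ⟨k, hk, h | h⟩)
    · have := congrFun h j; simp [stp_same] at this
    · have := congrFun h j
      simp [stp_same, stp_ne hj] at this
    · have := congrFun h i
      simp [stp_same, stp_ne hj.symm, stp_ne hk.symm] at this
    · have := congrFun h i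
      simp [stp_same, stp_ne hj.symm, stp_ne hk.symm] at this
  have hv : comp v = comp w := by
    rw [← hedge v j (hP.mem (by simp) (Or.inr ⟨j, hj, Or.inl rfl⟩))]
    refine hsmall _ hvj ?_
    rw [hc, nm_le_iff]; intro k
    simp only [Pi.sub_apply, Pi.add_apply, stp_apply]
    split_ifs <;> simp
  have hcw : comp c = comp w := by
    rw [← hv]; exact hedge v i (hP.mem (by simp) (Or.inl rfl))
  have hTT : ∀ z ∈ TT i v, comp z = comp w := by
    rintro z (rfl | rfl | ⟨k, hk, rfl | rfl⟩)
    · exact hv
    · exact hcw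
    · rw [hedge (v + stp i) k (hP.mem (by simp) (Or.inr ⟨k, hk, Or.inr (Or.inr (Or.inl rfl))⟩))]
      exact hcw
    · have h1 : (v + stp i - stp k, k) ∈ O := hP.mem
        (by rw [show v + stp i - stp k - v = stp i - stp k by abel]
            have := nm_sub_le (stp i : V d) (stp k); simp at this; omega)
        (Or.inr ⟨k, hk, Or.inr (Or.inr (Or.inr (Or.inl rfl)))⟩)
      have h2 := hedge _ _ h1
      rw [sub_add_cancel] at h2
      rw [← h2]; exact hcw
  have hball : ∀ z, nm (z - c) ≤ 2 → comp z = comp w := by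
    intro z hz
    by_cases hT : z ∈ TT i v
    · exact hTT z hT
    · by_cases h1 : nm (z - c) ≤ 1
      · exact hsmall z hT h1
      · exact hanc _ _ (by omega) (by omega) (by omega) (by omega)
  have hall : ∀ x k, nm (x - v) ≤ 4 → comp (x + stp k) = comp x := by
    intro x k hx
    by_cases h1 : x ∈ TT i v
    · have e1 := TT_near h1
      rw [← hc] at e1
      have e2 : nm (x + stp k - c) ≤ 2 := by
        have := nm_tri (x + stp k) x c
        rw [add_sub_cancel_left, nm_stp] at this; omega
      rw [hball _ e2, hTT _ h1]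
    · by_cases h2 : x + stp k ∈ TT i v
      · have e1 := TT_near h2
        rw [← hc] at e1
        have e2 : nm (x - c) ≤ 2 := by
          have := nm_tri x (x + stp k) c
          rw [show x - (x + stp k) = -stp k by abel, nm_neg, nm_stp] at this; omega
        rw [hball _ e2, hTT _ h2]
      · exact hedge x k ((hP (x, k) hx).mpr (Or.inl ⟨h1, h2⟩))
  intro x y hxy
  obtain ⟨p⟩ := hxy
  induction p with
  | nil => exact SimpleGraph.Reachable.refl _
  | @cons a b _ hadj _ ih =>
    refine SimpleGraph.Reachable.trans ?_ ih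
    obtain ⟨k, ⟨rfl, h | h⟩ | ⟨rfl, h | h⟩⟩ := hadj
    · exact (gr_adj_step h).reachable
    · exact (SimpleGraph.ConnectedComponent.eq.mp (hall a k h)).symm
    · exact (gr_adj_step h).symm.reachable
    · exact SimpleGraph.ConnectedComponent.eq.mp (hall b k h)

end Pool.Agent.W844.VG
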