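import Mathlib

/-!
# MP_b4265e_pr (vanishing gradients on the percolation cluster): definitions and statements

`O : Set (E d)` is always the set of open edges of the lattice `ℤ^d`; `(x, i) : E d` is the edge
between `x` and `x + e_i`.
-/

set_option autoImplicit false

open Finset MeasureTheory ProbabilityTheory
open scoped Classical

namespace Pool.Agent.W844.VG

/-- vertices of the lattice -/
abbrev V (d : ℕ) : Type := Fin d → ℤ

/-- edges of the lattice -/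
abbrev E (d : ℕ) : Type := V d × Fin d

variable {d : ℕ}

/-- unit vector -/
def stp (i : Fin d) : V d := Pi.single i 1

/-- sup norm -/
def nm (x : V d) : ℕ := univ.sup fun i => (x i).natAbs

/-- the box `{x : nm x ≤ n}` -/
noncomputable def box (d n : ℕ) : Finset (V d) := Fintype.piFinset fun _ => Icc (-(n : ℤ)) n

/-- the graph of the open edges -/
def gr (O : Set (E d)) : SimpleGraph (V d) where
  Adj x y := ∃ i, (y = x + stp i ∧ (x, i) ∈ O) ∨ (x = y + stp i ∧ (y, i) ∈ O)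
  symm := ⟨fun x y ⟨i, h⟩ => ⟨i, h.symm⟩⟩
  loopless := ⟨fun x ⟨i, h⟩ => by
    have h0 : (stp i : V d) = 0 := by
      rcases h with h | h <;> exact left_eq_add.mp h.1
    have h1 := congrFun h0 i
    simp [stp] at h1⟩

/-- vertices in infinite clusters -/
def InfV (O : Set (E d)) : Set (V d) := {x | {y | (gr O).Reachable x y}.Infinite}

/-- joined by an open path inside the ball of radius `r` around `c` -/
def JoinIn (O : Set (E d)) (c : V d) (r : ℕ) (x y : V d) : Prop :=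
  Relation.ReflTransGen
    (fun s t => (gr O).Adj s t ∧ nm (s - c) ≤ r ∧ nm (t - c) ≤ r) x y

/-- a simple chain `c 0 = e, c 1, ..., c m` of closed edges, consecutive ones have base points at
distance at most `1` -/
def Chain (O : Set (E d)) (e : E d) (m : ℕ) : Prop :=
  ∃ c : ℕ → E d, c 0 = e ∧ (∀ k, k ≤ m → c k ∉ O) ∧
    (∀ k, k < m → nm ((c (k + 1)).1 - (c k).1) ≤ 1) ∧
    (∀ j k, j ≤ m → k ≤ m → c j = c k → j = k)

/-- edge boundary of a two-valued function -/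
def bd (g : V d → ZMod 2) : Set (E d) := {e | g (e.1 + stp e.2) ≠ g e.1}

/-- star-connected set of edges -/
def StarConn (S : Set (E d)) : Prop :=
  ∀ e ∈ S, ∀ f ∈ S, Relation.ReflTransGen
    (fun a b => a ∈ S ∧ b ∈ S ∧ nm (b.1 - a.1) ≤ 1) e f

/-- `log_2 (|v| + 2)`, at least `1` -/
def ell (v : V d) : ℕ := Nat.log 2 (nm v + 2)

/-- length of the longest closed chains in the box of radius `n` -/
def lg (d n : ℕ) : ℕ := (d + 2) * Nat.log 2 (n + 2)

/-- there are no long closed chains -/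
def Good (O : Set (E d)) : Prop :=
  ∃ N0 : ℕ, ∀ n, N0 ≤ n → ∀ e : E d, nm e.1 ≤ n → ¬ Chain O e (lg d n)

/-- the infinite cluster is locally dense and locally connected on the scale `ell` -/
def Loc (O : Set (E d)) : Prop :=
  ∃ a b : ℕ, 1 ≤ a ∧ (∀ v, ∃ x, x ∈ InfV O ∧ nm (x - v) ≤ a * ell v) ∧
    (∀ v x y, x ∈ InfV O → y ∈ InfV O → nm (x - v) ≤ 3 * a * ell v →
      nm (y - v) ≤ 3 * a * ell v → JoinIn O v (b * ell v) x y)

/-- `u` is harmonic at `x` (sum over the open edges at `x`) -/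
def HarmAt (O : Set (E d)) (u : V d → ℝ) (x : V d) : Prop :=
  ∑ i : Fin d, ((if (x, i) ∈ O then u (x + stp i) - u x else 0) +
    (if (x - stp i, i) ∈ O then u (x - stp i) - u x else 0)) = 0

/-- Dirichlet energy in the box of radius `n` -/
noncomputable def en (O : Set (E d)) (u : V d → ℝ) (n : ℕ) : ℝ :=
  ∑ v ∈ box d n, ∑ i : Fin d, if (v, i) ∈ O then (u (v + stp i) - u v) ^ 2 else 0

/-- `f` is a capacity potential of `o` in the box of radius `n` -/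
def IsCap (O : Set (E d)) (o : V d) (n : ℕ) (f : V d → ℝ) : Prop :=
  f o = 1 ∧ (∀ x, 0 ≤ f x ∧ f x ≤ 1) ∧ (∀ x, x ∉ InfV O → f x = 0) ∧
    (∀ x, n < nm x → f x = 0) ∧ (∀ x, x ≠ o → nm x ≤ n → HarmAt O f x) ∧
    (∀ m, en O f m ≤ 2 * d)

/-! ### the pattern -/

/-- the vertices of the pattern: `v`, `v + e_i`, `v + e_i ± e_j` -/
def TT (i : Fin d) (v : V d) : Set (V d) :=
  {x | x = v ∨ x = v + stp i ∨
    ∃ j, j ≠ i ∧ (x = v + stp i + stp j ∨ x = v + stp i - stp j)}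

/-- the open edges of the pattern that touch `TT i v` -/
def AL (i : Fin d) (v : V d) : Set (E d) :=
  {e | e = (v, i) ∨ ∃ j, j ≠ i ∧ (e = (v, j) ∨ e = (v - stp j, j) ∨ e = (v + stp i, j) ∨
    e = (v + stp i - stp j, j) ∨ e = (v + stp j, i) ∨ e = (v - stp j, i))}

/-- the pattern at `v`: in the ball of radius `4` an edge is open iff it does not touch `TT i v` or
is one of the edges `AL i v` -/
def Pat (O : Set (E d)) (i : Fin d) (v : V d) : Prop :=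
  ∀ e : E d, nm (e.1 - v) ≤ 4 →
    (e ∈ O ↔ ((e.1 ∉ TT i v ∧ e.1 + stp e.2 ∉ TT i v) ∨ e ∈ AL i v))

/-! ### probability -/

/-- `X` is Bernoulli percolation with parameter `p` -/
def IsPerc {Ω : Type} [MeasurableSpace Ω] (μ : Measure Ω) (X : E d → Ω → Bool) (p : ℝ) : Prop :=
  IsProbabilityMeasure μ ∧ (∀ e, Measurable (X e)) ∧ iIndepFun X μ ∧
    ∀ e, μ.real {ω | X e ω = true} = p

/-- the set of open edges -/
def opn {Ω : Type} (X : E d → Ω → Bool) (ω : Ω) : Set (E d) := {e | X e ω = true}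

/-! ### statements -/

/-- Poincare lemma mod 2 -/
def S_POIN : Prop := ∀ (d : ℕ) (κ : V d → Fin d → ZMod 2),
  (∀ x i j, κ x i + κ (x + stp i) j = κ x j + κ (x + stp j) i) →
    ∃ g : V d → ZMod 2, ∀ x i, g (x + stp i) = g x + κ x i

/-- annuli are connected -/
def S_ANN : Prop := ∀ (d : ℕ), 2 ≤ d → ∀ (α : Type) (g : V d → α) (c : V d) (r s : ℕ),
  (∀ x i, r < nm (x - c) → nm (x - c) ≤ s → r < nm (x + stp i - c) →
    nm (x + stp i - c) ≤ s → g (x + stp i) = g x) →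
  ∀ x y, r < nm (x - c) → nm (x - c) ≤ s → r < nm (y - c) → nm (y - c) ≤ s → g x = g y

/-- boxes are connected -/
def S_BOX : Prop := ∀ (d : ℕ) (α : Type) (g : V d → α) (c : V d) (s : ℕ),
  (∀ x i, nm (x - c) ≤ s → nm (x + stp i - c) ≤ s → g (x + stp i) = g x) →
  ∀ x y, nm (x - c) ≤ s → nm (y - c) ≤ s → g x = g y

/-- a finite boundary separating `u` from `v` contains a star-connected one -/
def S_CUT : Prop := ∀ (d : ℕ) (g : V d → ZMod 2) (u v : V d), (bd g).Finite → g u ≠ g v →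
  ∃ g' : V d → ZMod 2, bd g' ⊆ bd g ∧ g' u ≠ g' v ∧ StarConn (bd g')

/-- simple chains in star-connected sets of closed edges -/
def S_SIMPLE : Prop := ∀ (d : ℕ) (O S : Set (E d)), (∀ a ∈ S, a ∉ O) → StarConn S →
  ∀ e ∈ S, ∀ f ∈ S, ∀ m : ℕ, m ≤ nm (f.1 - e.1) → Chain O e m

/-- balls without points of infinite clusters are enclosed by long closed chains -/
def S_NEAR : Prop := ∀ (d : ℕ), 2 ≤ d → ∀ (O : Set (E d)) (v : V d) (L : ℕ) (i : Fin d),
  (∀ x, nm (x - v) ≤ L → x ∉ InfV O) →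
    ∃ k : ℕ, L ≤ k ∧ Chain O (v + (k : ℤ) • stp i, i) k

/-- without long closed chains points of infinite clusters are joined locally -/
def S_JOIN : Prop := ∀ (d : ℕ), 2 ≤ d → ∀ (O : Set (E d)) (c : V d) (R m : ℕ),
  (∀ e : E d, nm (e.1 - c) ≤ R → ¬ Chain O e m) →
  ∀ u v, u ∈ InfV O → v ∈ InfV O → nm (u - c) + 2 * m + 8 ≤ R →
    nm (v - c) + 2 * m + 8 ≤ R → JoinIn O c R u v

/-- local regularity of the cluster -/
def S_LOC : Prop := ∀ (d : ℕ), 2 ≤ d → ∀ (O : Set (E d)), Good O → Loc O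

/-- Peierls bound -/
def S_PEI : Prop := ∀ (d : ℕ) (Ω : Type) [MeasurableSpace Ω] (μ : Measure Ω)
  (X : E d → Ω → Bool) (p : ℝ), IsPerc μ X p → ∀ (e : E d) (m : ℕ),
    μ {ω | Chain (opn X ω) e m} ≤
      ENNReal.ofReal (((d : ℝ) * 3 ^ d) ^ m * (1 - p) ^ (m + 1))

/-- almost surely there are no long closed chains -/
def S_AEGOOD : Prop := ∀ (d : ℕ) (Ω : Type) [MeasurableSpace Ω] (μ : Measure Ω)
  (X : E d → Ω → Bool) (p : ℝ), IsPerc μ X p → (d : ℝ) * 3 ^ d * (1 - p) ≤ 1 / 2 →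
    ∀ᵐ ω ∂μ, Good (opn X ω)

/-- percolation occurs -/
def S_THETA : Prop := ∀ (d : ℕ) (Ω : Type) [MeasurableSpace Ω] (μ : Measure Ω)
  (X : E d → Ω → Bool) (p : ℝ), 2 ≤ d → IsPerc μ X p → (d : ℝ) * 3 ^ d * (1 - p) ≤ 1 / 4 →
    0 < μ {ω | (0 : V d) ∈ InfV (opn X ω)}

/-- weak law of large numbers for locally dependent events -/
def S_CHEB : Prop := ∀ (d : ℕ) (Ω : Type) [MeasurableSpace Ω] (μ : Measure Ω)
  [IsProbabilityMeasure μ] (A : V d → Set Ω) (N r : ℕ) (ρ : ℝ), 0 < ρ →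
  (∀ v, MeasurableSet (A v)) → (∀ v ∈ box d N, ρ ≤ μ.real (A v)) →
  (∀ v ∈ box d N, ∀ w ∈ box d N, r < nm (v - w) →
    μ.real (A v ∩ A w) = μ.real (A v) * μ.real (A w)) →
  μ.real {ω | (((box d N).filter fun v => ω ∈ A v).card : ℝ) ≤ ρ / 2 * (2 * N + 1) ^ d} ≤
    4 * (2 * r + 1) ^ d / (ρ ^ 2 * (2 * N + 1) ^ d)

/-- the pattern has positive density in the infinite cluster -/
def S_LLN : Prop := ∀ (d : ℕ) (Ω : Type) [MeasurableSpace Ω] (μ : Measure Ω)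
  (X : E d → Ω → Bool) (p : ℝ) (i : Fin d), 3 ≤ d → IsPerc μ X p → p < 1 →
  (d : ℝ) * 3 ^ d * (1 - p) ≤ 1 / 4 →
    ∃ c : ℝ, 0 < c ∧ ∀ᵐ ω ∂μ, ∀ᶠ N : ℕ in Filter.atTop, c * (2 * N + 1) ^ d ≤
      (((box d N).filter fun v => Pat (opn X ω) i v ∧ v ∈ InfV (opn X ω)).card : ℝ)

/-- every function that is harmonic in the pattern has gradient zero on its central edge -/
def S_PATZ : Prop := ∀ (d : ℕ), 2 ≤ d → ∀ (O : Set (E d)) (i : Fin d) (v : V d) (u : V d → ℝ),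
  Pat O i v → (∀ x ∈ TT i v, HarmAt O u x) → u (v + stp i) = u v

/-- opening all edges near the pattern does not change the clusters -/
def S_PATC : Prop := ∀ (d : ℕ), 2 ≤ d → ∀ (O : Set (E d)) (i : Fin d) (v : V d),
  Pat O i v → ∀ x y, (gr (O ∪ {e | nm (e.1 - v) ≤ 4})).Reachable x y → (gr O).Reachable x y

/-- existence of capacity potentials -/
def S_MIN : Prop := ∀ (d : ℕ) (O : Set (E d)) (o : V d) (n : ℕ), o ∈ InfV O → nm o ≤ n →
  ∃ f : V d → ℝ, IsCap O o n f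

/-- superlevel sets of capacity potentials reach `o` -/
def S_LEVEL : Prop := ∀ (d : ℕ) (O : Set (E d)) (o : V d) (n : ℕ) (f : V d → ℝ),
  o ∈ InfV O → (∀ x y, x ∈ InfV O → y ∈ InfV O → (gr O).Reachable x y) → IsCap O o n f →
  ∀ (x : V d) (δ : ℝ), 0 < δ → δ ≤ f x → ∀ k : ℕ, nm o ≤ k → k ≤ nm x →
    ∃ z, nm z = k ∧ δ ≤ f z

/-- flow inequality on the lattice: sum of the values at points of different norms against the
weighted Dirichlet energy -/
def S_FLOW : Prop := ∀ (d : ℕ), 3 ≤ d → ∀ A : ℝ, 0 < A → ∃ C : ℝ, 0 < C ∧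
  ∀ (W : V d → ℝ), (∀ v, 0 < W v ∧ W v ≤ A * ((nm v : ℝ) + 1) ^ ((1 : ℝ) / 8)) →
  ∀ (g : V d → ℝ) (M : ℕ), (∀ x, M < nm x → g x = 0) →
  ∀ (a b : ℕ) (z : ℕ → V d), (∀ k, a ≤ k → k < b → nm (z k) = k) →
    ∑ k ∈ Ico a b, g (z k) ≤ C * (b : ℝ) ^ ((13 : ℝ) / 16) *
      Real.sqrt (∑ v ∈ box d (M + 1), ∑ i : Fin d, (g (v + stp i) - g v) ^ 2 / W v)

/-- comparison of the energies of `f` on the cluster and of `f ∘ φ` on the lattice -/
def S_WEN : Prop := ∀ (d : ℕ) (O : Set (E d)) (a b : ℕ), 1 ≤ a →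
  (∀ v x y, x ∈ InfV O → y ∈ InfV O → nm (x - v) ≤ 3 * a * ell v →
      nm (y - v) ≤ 3 * a * ell v → JoinIn O v (b * ell v) x y) →
  ∀ φ : V d → V d, (∀ v, φ v ∈ InfV O ∧ nm (φ v - v) ≤ a * ell v) →
  ∃ A : ℝ, 0 < A ∧ ∀ (f : V d → ℝ) (B : ℝ), (∀ m, en O f m ≤ B) →
    ∀ M : ℕ, ∑ v ∈ box d M, ∑ i : Fin d,
      (f (φ (v + stp i)) - f (φ v)) ^ 2 / (A * (ell v : ℝ) ^ (2 * d)) ≤ B

/-- a positive decaying function, harmonic except at `o` -/
def S_HARM : Prop := ∀ (d : ℕ), 3 ≤ d → ∀ (O : Set (E d)), Loc O → ∀ o ∈ InfV O,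
  ∃ u : V d → ℝ, u o = 1 ∧ (∀ x ∈ InfV O, 0 < u x) ∧ (∀ x, x ≠ o → HarmAt O u x) ∧
    (∀ ε : ℝ, 0 < ε → ∃ R : ℕ, ∀ x, R ≤ nm x → u x ≤ ε)

end Pool.Agent.W844.VG
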