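import Pool.Agent.W844.VG.Defs

/-!
# MP_b4265e_pr: basic lemmas
-/

set_option autoImplicit false

open Finset MeasureTheory ProbabilityTheory
open scoped Classical

namespace Pool.Agent.W844.VG

variable {d : ℕ}

lemma nm_le_iff {x : V d} {n : ℕ} : nm x ≤ n ↔ ∀ i, (x i).natAbs ≤ n := by
  unfold nm; simp [Finset.sup_le_iff]

lemma lt_nm_iff {x : V d} {n : ℕ} : n < nm x ↔ ∃ i, n < (x i).natAbs := by
  unfold nm; simp [Finset.lt_sup_iff]

lemma natAbs_le_nm (x : V d) (i : Fin d) : (x i).natAbs ≤ nm x := nm_le_iff.mp le_rfl i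

lemma abs_le_nm (x : V d) (i : Fin d) : |x i| ≤ (nm x : ℤ) := by
  have := natAbs_le_nm x i; rw [Int.abs_eq_natAbs]; omega

lemma nm_le_of_abs {x : V d} {n : ℕ} (h : ∀ i, |x i| ≤ (n : ℤ)) : nm x ≤ n :=
  nm_le_iff.mpr fun i => by have := h i; rw [Int.abs_eq_natAbs] at this; omega

@[simp] lemma nm_zero : nm (0 : V d) = 0 := Nat.le_zero.mp (nm_le_iff.mpr fun i => by simp)

lemma nm_neg (x : V d) : nm (-x) = nm x := by unfold nm; simp

lemma nm_sub_comm (x y : V d) : nm (x - y) = nm (y - x) := by rw [← nm_neg (y - x), neg_sub]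

lemma nm_add_le (x y : V d) : nm (x + y) ≤ nm x + nm y := by
  rw [nm_le_iff]; intro i
  have h1 := natAbs_le_nm x i
  have h2 := natAbs_le_nm y i
  simp only [Pi.add_apply]; omega

lemma nm_sub_le (x y : V d) : nm (x - y) ≤ nm x + nm y := by
  have := nm_add_le x (-y); rwa [nm_neg, ← sub_eq_add_neg] at this

/-- triangle inequality -/
lemma nm_tri (x y z : V d) : nm (x - z) ≤ nm (x - y) + nm (y - z) := by
  have := nm_add_le (x - y) (y - z); rwa [sub_add_sub_cancel] at this

lemma nm_le_add (x y : V d) : nm x ≤ nm (x - y) + nm y := by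
  have := nm_add_le (x - y) y; rwa [sub_add_cancel] at this

lemma eq_zero_of_nm {x : V d} (h : nm x = 0) : x = 0 := by
  funext i; have := natAbs_le_nm x i; simp only [Pi.zero_apply]; omega

lemma stp_same (i : Fin d) : (stp i : V d) i = 1 := by simp [stp]

lemma stp_ne {i j : Fin d} (h : j ≠ i) : (stp i : V d) j = 0 := by simp [stp, h]

lemma stp_apply (i j : Fin d) : (stp i : V d) j = if j = i then 1 else 0 := by
  by_cases h : j = i
  · subst h; simp [stp]
  · simp [stp, h]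

@[simp] lemma nm_stp (i : Fin d) : nm (stp i : V d) = 1 := by
  apply le_antisymm
  · rw [nm_le_iff]; intro j; rw [stp_apply]; split_ifs <;> simp
  · have := natAbs_le_nm (stp i : V d) i; rw [stp_same] at this; simpa using this

lemma nm_zsmul_stp (i : Fin d) (k : ℤ) : nm (k • stp i : V d) = k.natAbs := by
  apply le_antisymm
  · rw [nm_le_iff]; intro j
    simp only [Pi.smul_apply, stp_apply, smul_eq_mul]
    split_ifs <;> simp
  · have := natAbs_le_nm (k • stp i : V d) i
    simpa [stp_same] using this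

lemma nm_add_stp_le (x : V d) (i : Fin d) : nm (x + stp i) ≤ nm x + 1 := by
  have := nm_add_le x (stp i); simpa using this

lemma nm_sub_stp_le (x : V d) (i : Fin d) : nm (x - stp i) ≤ nm x + 1 := by
  have := nm_sub_le x (stp i); simpa using this

lemma le_nm_add_stp (x : V d) (i : Fin d) : nm x ≤ nm (x + stp i) + 1 := by
  have := nm_sub_stp_le (x + stp i) i; rwa [add_sub_cancel_right] at this

lemma mem_box {n : ℕ} {x : V d} : x ∈ box d n ↔ nm x ≤ n := by
  unfold box
  rw [Fintype.mem_piFinset, nm_le_iff]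
  refine forall_congr' fun i => ?_
  rw [mem_Icc]; omega

lemma card_box (n : ℕ) : (box d n).card = (2 * n + 1) ^ d := by
  unfold box
  rw [Fintype.card_piFinset]
  simp only [Int.card_Icc, prod_const, card_univ, Fintype.card_fin]
  congr 1; omega

/-- number of points in a ball -/
lemma card_ball_le (s : Finset (V d)) (c : V d) (r : ℕ) (h : ∀ x ∈ s, nm (x - c) ≤ r) :
    s.card ≤ (2 * r + 1) ^ d := by
  rw [← card_box (d := d) r]
  refine card_le_card_of_injOn (fun x => x - c) (fun x hx => ?_) (fun x _ y _ hxy => ?_)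
  · exact mem_box.mpr (h x hx)
  · simpa using hxy

lemma finite_ball (c : V d) (r : ℕ) : {x : V d | nm (x - c) ≤ r}.Finite := by
  refine ((box d (r + nm c)).finite_toSet).subset fun x hx => ?_
  rw [mem_coe, mem_box]
  have := nm_le_add x c
  have hx' : nm (x - c) ≤ r := hx
  omega

lemma finite_edge_ball (c : V d) (r : ℕ) : {e : E d | nm (e.1 - c) ≤ r}.Finite := by
  refine ((finite_ball c r).prod (Set.finite_univ (α := Fin d))).subset fun e he => ?_
  exact ⟨he, Set.mem_univ _⟩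

lemma gr_adj {O : Set (E d)} {x y : V d} :
    (gr O).Adj x y ↔ ∃ i, (y = x + stp i ∧ (x, i) ∈ O) ∨ (x = y + stp i ∧ (y, i) ∈ O) := Iff.rfl

lemma gr_adj_step {O : Set (E d)} {x : V d} {i : Fin d} (h : (x, i) ∈ O) :
    (gr O).Adj x (x + stp i) := ⟨i, Or.inl ⟨rfl, h⟩⟩

lemma gr_adj_back {O : Set (E d)} {x : V d} {i : Fin d} (h : (x - stp i, i) ∈ O) :
    (gr O).Adj x (x - stp i) := ⟨i, Or.inr ⟨by simp, h⟩⟩

lemma gr_mono {O O' : Set (E d)} (h : O ⊆ O') : gr O ≤ gr O' := by
  rintro x y ⟨i, h1 | h1⟩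
  · exact ⟨i, Or.inl ⟨h1.1, h h1.2⟩⟩
  · exact ⟨i, Or.inr ⟨h1.1, h h1.2⟩⟩

lemma nm_adj {O : Set (E d)} {x y : V d} (h : (gr O).Adj x y) : nm (y - x) = 1 := by
  obtain ⟨i, ⟨rfl, -⟩ | ⟨rfl, -⟩⟩ := h
  · simp
  · rw [nm_sub_comm]; simp

lemma infV_of_reachable {O : Set (E d)} {x y : V d} (h : (gr O).Reachable x y)
    (hx : x ∈ InfV O) : y ∈ InfV O := by
  have : {z | (gr O).Reachable y z} = {z | (gr O).Reachable x z} := by
    ext z; exact ⟨fun h' => h.trans h', fun h' => h.symm.trans h'⟩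
  show {z | (gr O).Reachable y z}.Infinite
  rw [this]; exact hx

lemma infV_of_adj {O : Set (E d)} {x y : V d} (h : (gr O).Adj x y) (hx : x ∈ InfV O) :
    y ∈ InfV O := infV_of_reachable h.reachable hx

lemma infV_step {O : Set (E d)} {x : V d} {i : Fin d} (h : (x, i) ∈ O) :
    x ∈ InfV O ↔ x + stp i ∈ InfV O :=
  ⟨infV_of_adj (gr_adj_step h), infV_of_adj (gr_adj_step h).symm⟩

lemma JoinIn.reachable {O : Set (E d)} {c : V d} {r : ℕ} {x y : V d} (h : JoinIn O c r x y) :
    (gr O).Reachable x y := by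
  induction h with
  | refl => exact SimpleGraph.Reachable.refl _
  | tail _ h2 ih => exact ih.trans h2.1.reachable

lemma Chain.mono {O O' : Set (E d)} {e : E d} {m m' : ℕ} (h : Chain O e m) (hm : m' ≤ m)
    (hO : O' ⊆ O) : Chain O' e m' := by
  obtain ⟨c, h0, h1, h2, h3⟩ := h
  exact ⟨c, h0, fun k hk hk' => h1 k (hk.trans hm) (hO hk'), fun k hk => h2 k (by omega),
    fun j k hj hk => h3 j k (hj.trans hm) (hk.trans hm)⟩

lemma mem_bd {g : V d → ZMod 2} {e : E d} : e ∈ bd g ↔ g (e.1 + stp e.2) ≠ g e.1 := Iff.rfl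

lemma one_le_ell (v : V d) : 1 ≤ ell v := by
  unfold ell
  exact (Nat.log_pos (by norm_num) (by omega))

lemma ell_le_of_nm_le {v w : V d} (h : nm v ≤ nm w) : ell v ≤ ell w :=
  Nat.log_mono_right (by omega)

lemma ell_add_stp_le (v : V d) (i : Fin d) : ell (v + stp i) ≤ ell v + 1 := by
  unfold ell
  have h1 : nm (v + stp i) + 2 ≤ (nm v + 2) * 2 := by have := nm_add_stp_le v i; omega
  calc Nat.log 2 (nm (v + stp i) + 2) ≤ Nat.log 2 ((nm v + 2) * 2) := Nat.log_mono_right h1
    _ = Nat.log 2 (nm v + 2) + 1 := Nat.log_mul_base (by norm_num) (by omega)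

lemma en_mono {O : Set (E d)} {u : V d → ℝ} {m n : ℕ} (h : m ≤ n) : en O u m ≤ en O u n := by
  unfold en
  refine sum_le_sum_of_subset_of_nonneg (fun x hx => ?_) (fun x _ _ => sum_nonneg fun i _ => ?_)
  · rw [mem_box] at *; omega
  · split_ifs <;> positivity

end Pool.Agent.W844.VG
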