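import Pool.Agent.W844.VG.Basic

/-!
# MP_b4265e_pr: the decaying harmonic function (from potentials of large boxes)
-/

set_option autoImplicit false

open Finset MeasureTheory ProbabilityTheory
open scoped Classical

namespace Pool.Agent.W844.VG

variable {d : ℕ}

lemma sq_le_two_pow (L : ℕ) (hL : 4 ≤ L) : L ^ 2 ≤ 2 ^ L := by
  induction L, hL using Nat.le_induction with
  | base => norm_num
  | succ n hn ih =>
    rw [pow_succ 2 n]
    nlinarith

lemma log_small (a : ℕ) : ∃ C : ℕ, ∀ t : ℕ, 2 * (a * Nat.log 2 (t + 2)) ≤ t + C := by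
  refine ⟨2 + 2 * (a * (2 * a + 4)), fun t => ?_⟩
  set L := Nat.log 2 (t + 2) with hL
  have h2 : 2 ^ L ≤ t + 2 := Nat.pow_log_le_self 2 (by omega)
  by_cases h : L ≤ 2 * a + 4
  · have : a * L ≤ a * (2 * a + 4) := Nat.mul_le_mul_left _ h
    omega
  · push Not at h
    have h3 := sq_le_two_pow L (by omega)
    have h4 : 2 * (a * L) ≤ L ^ 2 := by nlinarith
    omega

/-- powers of the logarithm are small -/
lemma logpow_small (A : ℝ) (hA : 0 < A) (k : ℕ) (hk : 0 < k) : ∃ A' : ℝ, 0 < A' ∧ ∀ n : ℕ,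
    A * (Nat.log 2 (n + 2) : ℝ) ^ k ≤ A' * ((n : ℝ) + 1) ^ ((1 : ℝ) / 8) := by
  set ε : ℝ := 1 / (8 * k) with hε
  have hk' : (0 : ℝ) < k := by exact_mod_cast hk
  have hε0 : 0 < ε := by positivity
  have hl2 : (0 : ℝ) < Real.log 2 := Real.log_pos (by norm_num)
  refine ⟨A * (1 / (ε * Real.log 2)) ^ k * 2, by positivity, fun n => ?_⟩
  have h1 : (Nat.log 2 (n + 2) : ℝ) ≤ Real.log (n + 2) / Real.log 2 := by
    rw [le_div_iff₀ hl2]
    have h := Nat.pow_log_le_self 2 (show n + 2 ≠ 0 by omega)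
    have h' : ((2 : ℝ) ^ Nat.log 2 (n + 2)) ≤ (n : ℝ) + 2 := by exact_mod_cast h
    have := Real.log_le_log (by positivity) h'
    rwa [Real.log_pow] at this
  have h2 : Real.log (n + 2) ≤ ((n : ℝ) + 2) ^ ε / ε :=
    Real.log_le_rpow_div (by positivity) hε0
  have h3 : (Nat.log 2 (n + 2) : ℝ) ≤ ((n : ℝ) + 2) ^ ε * (1 / (ε * Real.log 2)) := by
    calc (Nat.log 2 (n + 2) : ℝ) ≤ Real.log (n + 2) / Real.log 2 := h1
      _ ≤ (((n : ℝ) + 2) ^ ε / ε) / Real.log 2 := by gcongr
      _ = _ := by field_simp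
  have h4 : (Nat.log 2 (n + 2) : ℝ) ^ k ≤ (((n : ℝ) + 2) ^ ε) ^ k * (1 / (ε * Real.log 2)) ^ k := by
    rw [← mul_pow]
    exact pow_le_pow_left₀ (by positivity) h3 k
  have h5 : (((n : ℝ) + 2) ^ ε) ^ k = ((n : ℝ) + 2) ^ ((1 : ℝ) / 8) := by
    rw [← Real.rpow_natCast, ← Real.rpow_mul (by positivity)]
    congr 1; rw [hε]; field_simp
  have h6 : ((n : ℝ) + 2) ^ ((1 : ℝ) / 8) ≤ 2 * ((n : ℝ) + 1) ^ ((1 : ℝ) / 8) := by
    calc ((n : ℝ) + 2) ^ ((1 : ℝ) / 8) ≤ (2 * ((n : ℝ) + 1)) ^ ((1 : ℝ) / 8) :=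
          Real.rpow_le_rpow (by positivity) (by linarith) (by norm_num)
      _ = 2 ^ ((1 : ℝ) / 8) * ((n : ℝ) + 1) ^ ((1 : ℝ) / 8) :=
          Real.mul_rpow (by norm_num) (by positivity)
      _ ≤ 2 * ((n : ℝ) + 1) ^ ((1 : ℝ) / 8) := by
          gcongr
          calc (2 : ℝ) ^ ((1 : ℝ) / 8) ≤ 2 ^ (1 : ℝ) :=
                Real.rpow_le_rpow_of_exponent_le (by norm_num) (by norm_num)
            _ = 2 := by norm_num
  rw [h5] at h4
  calc A * (Nat.log 2 (n + 2) : ℝ) ^ k
      ≤ A * (((n : ℝ) + 2) ^ ((1 : ℝ) / 8) * (1 / (ε * Real.log 2)) ^ k) := by gcongr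
    _ ≤ A * ((2 * ((n : ℝ) + 1) ^ ((1 : ℝ) / 8)) * (1 / (ε * Real.log 2)) ^ k) := by gcongr
    _ = _ := by ring

/-- the projection to the cluster -/
lemma exists_phi {O : Set (E d)} {a : ℕ}
    (hnear : ∀ v, ∃ x, x ∈ InfV O ∧ nm (x - v) ≤ a * ell v) :
    ∃ φ : V d → V d, (∀ v, φ v ∈ InfV O ∧ nm (φ v - v) ≤ a * ell v) ∧
      ∀ v, v ∈ InfV O → φ v = v := by
  refine ⟨fun v => if v ∈ InfV O then v else (hnear v).choose, fun v => ?_, fun v hv => ?_⟩
  · by_cases hv : v ∈ InfV O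
    · simp [hv]
    · simp only [hv, if_false]; exact (hnear v).choose_spec
  · simp [hv]

lemma near3 {O : Set (E d)} {a : ℕ} (ha : 1 ≤ a) {φ : V d → V d}
    (hφ : ∀ v, φ v ∈ InfV O ∧ nm (φ v - v) ≤ a * ell v) (v : V d) (i : Fin d) :
    nm (φ (v + stp i) - v) ≤ 3 * a * ell v := by
  have h1 := nm_tri (φ (v + stp i)) (v + stp i) v
  have h2 := (hφ (v + stp i)).2
  have h3 : nm (v + stp i - v) = 1 := by simp
  have h4 := Nat.mul_le_mul_left a (ell_add_stp_le v i)
  have h5 := Nat.mul_le_mul_left a (one_le_ell v)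
  nlinarith

lemma near1 {O : Set (E d)} {a : ℕ} {φ : V d → V d}
    (hφ : ∀ v, φ v ∈ InfV O ∧ nm (φ v - v) ≤ a * ell v) (v : V d) :
    nm (φ v - v) ≤ 3 * a * ell v := by
  have := (hφ v).2; nlinarith

/-- the infinite cluster is unique -/
lemma Loc.conn (hbox : S_BOX) {O : Set (E d)} (hL : Loc O) {x y : V d} (hx : x ∈ InfV O)
    (hy : y ∈ InfV O) : (gr O).Reachable x y := by
  obtain ⟨a, b, ha, hnear, hjoin⟩ := hL
  obtain ⟨φ, hφ, hφ'⟩ := exists_phi hnear
  have key := hbox d _ (fun v => (gr O).connectedComponentMk (φ v)) 0 (max (nm x) (nm y))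
    (fun v i _ _ => by
      have h := hjoin v (φ (v + stp i)) (φ v) (hφ _).1 (hφ _).1 (near3 ha hφ v i) (near1 hφ v)
      exact SimpleGraph.ConnectedComponent.eq.mpr h.reachable) x y (by simp) (by simp)
  simp only [hφ' x hx, hφ' y hy] at key
  exact SimpleGraph.ConnectedComponent.eq.mp key

/-- uniform decay of the capacity potentials -/
lemma decay (hlev : S_LEVEL) (hflow : S_FLOW) (hwen : S_WEN) (hbox : S_BOX)
    (hd : 3 ≤ d) {O : Set (E d)} (hL : Loc O) {o : V d} (ho : o ∈ InfV O) :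
    ∀ ε : ℝ, 0 < ε → ∃ R : ℕ, ∀ (n : ℕ) (f : V d → ℝ), IsCap O o n f →
      ∀ x, R ≤ nm x → f x ≤ ε := by
  have hconn : ∀ x y, x ∈ InfV O → y ∈ InfV O → (gr O).Reachable x y :=
    fun x y hx hy => hL.conn hbox hx hy
  obtain ⟨a, b, ha, hnear, hjoin⟩ := hL
  obtain ⟨φ, hφ, hφ'⟩ := exists_phi hnear
  obtain ⟨A, hA, hwen'⟩ := hwen d O a b ha hjoin φ hφ
  obtain ⟨A', hA', hWA⟩ := logpow_small A hA (2 * d) (by omega)
  obtain ⟨C, hC, hfl⟩ := hflow d hd A' hA'
  obtain ⟨Cl, hCl⟩ := log_small a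
  intro ε hε
  -- choice of R
  set D : ℝ := 2 * C * Real.sqrt (2 * d) with hD
  have hD0 : 0 < D := by
    have : (0 : ℝ) < 2 * d := by
      have : (0 : ℝ) < d := by exact_mod_cast (by omega : 0 < d)
      linarith
    have := Real.sqrt_pos.mpr this
    positivity
  have htend : Filter.Tendsto (fun t : ℝ => D * t ^ (-((3 : ℝ) / 16))) Filter.atTop (nhds 0) := by
    have := (tendsto_rpow_neg_atTop (show (0 : ℝ) < 3 / 16 by norm_num)).const_mul D
    simpa using this
  obtain ⟨T, hT⟩ := (htend.eventually (gt_mem_nhds hε)).exists_forall_of_atTop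
  refine ⟨max ⌈T⌉₊ (2 * nm o + 1), fun n f hf x hx => ?_⟩
  by_contra hlt
  push Not at hlt
  have hδ : 0 < f x := hε.trans hlt
  have hxT : T ≤ (nm x : ℝ) := (Nat.le_ceil T).trans (by exact_mod_cast (le_max_left _ _).trans hx)
  have hxo : 2 * nm o + 1 ≤ nm x := (le_max_right _ _).trans hx
  obtain ⟨hf1, hf01, hfI, hfn, hfh, hfe⟩ := hf
  have hlevel := hlev d O o n f ho hconn ⟨hf1, hf01, hfI, hfn, hfh, hfe⟩ x (f x) hδ le_rfl
  choose! z hz1 hz2 using hlevel
  -- the function on the lattice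
  set g : V d → ℝ := fun v => f (φ v) with hg
  set M : ℕ := 2 * n + Cl + 1 with hM
  have hgM : ∀ y, M < nm y → g y = 0 := by
    intro y hy
    refine hfn _ ?_
    have h1 := (hφ y).2
    have h2 : nm y ≤ nm (y - φ y) + nm (φ y) := nm_le_add y (φ y)
    rw [nm_sub_comm] at h2
    have h3 := hCl (nm y)
    have h4 : a * ell y = a * Nat.log 2 (nm y + 2) := rfl
    omega
  have hWpos : ∀ v : V d, 0 < A * (ell v : ℝ) ^ (2 * d) := by
    intro v
    have : (0 : ℝ) < ell v := by exact_mod_cast one_le_ell v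
    positivity
  have hmain := hfl (fun v => A * (ell v : ℝ) ^ (2 * d))
    (fun v => ⟨hWpos v, by have := hWA (nm v); simpa [ell] using this⟩) g M hgM (nm o)
    (nm x + 1) z (fun k hk1 hk2 => hz1 k hk1 (by omega))
  have hE : ∑ v ∈ box d (M + 1), ∑ i : Fin d, (g (v + stp i) - g v) ^ 2 /
      (A * (ell v : ℝ) ^ (2 * d)) ≤ 2 * d := hwen' f (2 * d) hfe (M + 1)
  have hlow : f x * ((nm x : ℝ) + 1 - nm o) ≤ ∑ k ∈ Ico (nm o) (nm x + 1), g (z k) := by
    have h1 : ∀ k ∈ Ico (nm o) (nm x + 1), f x ≤ g (z k) := by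
      intro k hk
      rw [mem_Ico] at hk
      have h2 := hz2 k hk.1 (by omega)
      have h3 : z k ∈ InfV O := by
        by_contra h
        rw [hfI _ h] at h2; linarith
      show f x ≤ f (φ (z k))
      rw [hφ' _ h3]; exact h2
    have h2 := sum_le_sum h1
    rw [sum_const, Nat.card_Ico, nsmul_eq_mul] at h2
    refine le_trans (le_of_eq ?_) h2
    rw [Nat.cast_sub (by omega)]; push_cast; ring
  set B : ℝ := (nm x : ℝ) + 1 with hB
  have hB0 : 0 < B := by positivity
  have hcast : (((nm x + 1 : ℕ)) : ℝ) = B := by push_cast; rfl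
  rw [hcast] at hmain
  have hup : ∑ k ∈ Ico (nm o) (nm x + 1), g (z k) ≤
      C * B ^ ((13 : ℝ) / 16) * Real.sqrt (2 * d) := by
    refine hmain.trans ?_
    have := Real.sqrt_le_sqrt hE
    have h0 : 0 ≤ C * B ^ ((13 : ℝ) / 16) := by positivity
    exact mul_le_mul_of_nonneg_left this h0
  have hhalf : B / 2 ≤ (nm x : ℝ) + 1 - nm o := by
    have : (2 : ℝ) * nm o + 1 ≤ nm x := by exact_mod_cast hxo
    rw [hB]; linarith
  have h7 : f x * (B / 2) ≤ C * B ^ ((13 : ℝ) / 16) * Real.sqrt (2 * d) :=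
    (mul_le_mul_of_nonneg_left hhalf hδ.le).trans (hlow.trans hup)
  have h8 : B ^ ((13 : ℝ) / 16) = B * B ^ (-((3 : ℝ) / 16)) := by
    nth_rewrite 2 [← Real.rpow_one B]
    rw [← Real.rpow_add hB0]; norm_num
  have h9 : f x ≤ D * B ^ (-((3 : ℝ) / 16)) := by
    rw [h8] at h7
    have : f x * (B / 2) ≤ (D * B ^ (-((3 : ℝ) / 16))) * (B / 2) := by
      refine h7.trans (le_of_eq ?_)
      rw [hD]; ring
    exact le_of_mul_le_mul_right this (by positivity)
  have h10 := hT B (by rw [hB]; linarith)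
  linarith

theorem harm (hmin : S_MIN) (hlev : S_LEVEL) (hflow : S_FLOW) (hwen : S_WEN) (hbox : S_BOX) :
    S_HARM := by
  intro d hd O hL o ho
  have hdec := decay hlev hflow hwen hbox hd hL ho
  have hex : ∀ n : ℕ, ∃ f : V d → ℝ, nm o ≤ n → IsCap O o n f := by
    intro n
    by_cases h : nm o ≤ n
    · obtain ⟨f, hf⟩ := hmin d O o n ho h
      exact ⟨f, fun _ => hf⟩
    · exact ⟨0, fun h' => absurd h' h⟩
  choose f hf using hex
  set U : Ultrafilter ℕ := Filter.hyperfilter ℕ with hU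
  have hUat : (U : Filter ℕ) ≤ Filter.atTop := Nat.hyperfilter_le_atTop
  have hlim : ∀ x, ∃ l : ℝ, l ∈ Set.Icc (0 : ℝ) 1 ∧
      Filter.Tendsto (fun n => f n x) (U : Filter ℕ) (nhds l) := by
    intro x
    have hev : ∀ᶠ n in (U : Filter ℕ), f n x ∈ Set.Icc (0 : ℝ) 1 :=
      Filter.Eventually.filter_mono hUat
        (Filter.eventually_atTop.mpr ⟨nm o, fun n hn => (hf n hn).2.1 x⟩)
    obtain ⟨l, hl, hl'⟩ := (isCompact_Icc (a := (0 : ℝ)) (b := 1)).ultrafilter_le_nhds
      (U.map (fun n => f n x)) (by rw [Filter.le_principal_iff]; exact hev)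
    exact ⟨l, hl, hl'⟩
  choose u hu01 hu using hlim
  have huo : u o = 1 := by
    refine tendsto_nhds_unique (hu o) ?_
    refine tendsto_const_nhds.congr' ?_
    exact Filter.Eventually.filter_mono hUat
      (Filter.eventually_atTop.mpr ⟨nm o, fun n hn => ((hf n hn).1).symm⟩)
  have hharm : ∀ x, x ≠ o → HarmAt O u x := by
    intro x hx
    have h1 : Filter.Tendsto (fun n => ∑ i : Fin d,
        ((if (x, i) ∈ O then f n (x + stp i) - f n x else 0) +
        (if (x - stp i, i) ∈ O then f n (x - stp i) - f n x else 0))) (U : Filter ℕ)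
        (nhds (∑ i : Fin d, ((if (x, i) ∈ O then u (x + stp i) - u x else 0) +
        (if (x - stp i, i) ∈ O then u (x - stp i) - u x else 0)))) := by
      refine tendsto_finsetSum _ fun i _ => Filter.Tendsto.add ?_ ?_
      · split_ifs
        · exact (hu _).sub (hu _)
        · exact tendsto_const_nhds
      · split_ifs
        · exact (hu _).sub (hu _)
        · exact tendsto_const_nhds
    have h2 : Filter.Tendsto (fun n => ∑ i : Fin d,
        ((if (x, i) ∈ O then f n (x + stp i) - f n x else 0) +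
        (if (x - stp i, i) ∈ O then f n (x - stp i) - f n x else 0))) (U : Filter ℕ)
        (nhds 0) := by
      refine tendsto_const_nhds.congr' ?_
      refine Filter.Eventually.filter_mono hUat
        (Filter.eventually_atTop.mpr ⟨max (nm o) (nm x), fun n hn => ?_⟩)
      exact ((hf n ((le_max_left _ _).trans hn)).2.2.2.2.1 x hx
        ((le_max_right _ _).trans hn)).symm
    exact tendsto_nhds_unique h1 h2
  refine ⟨u, huo, fun x hx => ?_, hharm, fun ε hε => ?_⟩
  · -- positivity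
    have hr := hL.conn hbox hx ho
    by_contra hneg
    have h0 : u x = 0 := le_antisymm (not_lt.mp hneg) (hu01 x).1
    have step : ∀ y z : V d, (gr O).Adj y z → y ≠ o → u y = 0 → u z = 0 := by
      intro y z hyz hyo hy
      have hH := hharm y hyo
      unfold HarmAt at hH
      have hnn : ∀ i : Fin d, 0 ≤ ((if (y, i) ∈ O then u (y + stp i) - u y else 0) +
          (if (y - stp i, i) ∈ O then u (y - stp i) - u y else 0)) := by
        intro i
        have e1 := (hu01 (y + stp i)).1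
        have e2 := (hu01 (y - stp i)).1
        rw [hy]
        split_ifs <;> linarith
      have hz := (sum_eq_zero_iff_of_nonneg fun i _ => hnn i).mp hH
      obtain ⟨i, ⟨rfl, hi⟩ | ⟨h1, hi⟩⟩ := hyz
      · have h2 := hz i (mem_univ i)
        rw [if_pos hi, hy] at h2
        have e1 := (hu01 (y + stp i)).1
        have e2 := (hu01 (y - stp i)).1
        split_ifs at h2 <;> linarith
      · have hzy : z = y - stp i := by rw [h1]; simp
        subst hzy
        have h2 := hz i (mem_univ i)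
        rw [if_pos hi, hy] at h2
        have e1 := (hu01 (y + stp i)).1
        have e2 := (hu01 (y - stp i)).1
        split_ifs at h2 <;> linarith
    have walk : ∀ y z : V d, (gr O).Walk y z → z = o → u y = 0 → u o = 0 := by
      intro y z w
      induction w with
      | nil => intro h1 h2; rw [← h1]; exact h2
      | @cons y' z' w' hadj p ih =>
        intro h1 h2
        by_cases hyo : y' = o
        · rw [← hyo]; exact h2
        · exact ih h1 (step _ _ hadj hyo h2)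
    obtain ⟨w⟩ := hr
    have := walk x o w rfl h0
    rw [huo] at this; exact one_ne_zero this
  · obtain ⟨R, hR⟩ := hdec ε hε
    refine ⟨R, fun x hx => le_of_tendsto (hu x) ?_⟩
    exact Filter.Eventually.filter_mono hUat
      (Filter.eventually_atTop.mpr ⟨nm o, fun n hn => hR n (f n) (hf n hn) x hx⟩)

end Pool.Agent.W844.VG
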